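import Pool.Agent.Run7.h661.Y.Seq

/-!
# Convergence of the rescaled arms
-/

open Set Filter Topology MeasureTheory
open scoped ContDiff Real

namespace Run7.h661y

/-- Subarcs of the curves `c n : [0,1] → ℂ`, suitably reparametrised, converge in `C¹([0,1])` to the
curve `L`. -/
def SubarcsConverge (c : ℕ → ℝ → ℂ) (L : ℝ → ℂ) : Prop :=
  ∃ θ : ℕ → ℝ → ℝ,
    (∀ᶠ n in atTop, ∀ p ∈ Icc (0:ℝ) 1, θ n p ∈ Icc (0:ℝ) 1 ∧ 0 < deriv (θ n) p) ∧
    ∀ ε > 0, ∀ᶠ n in atTop, ∀ p ∈ Icc (0:ℝ) 1,
      ‖c n (θ n p) - L p‖ < ε ∧ ‖deriv (fun q => c n (θ n q)) p - deriv L p‖ < ε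

/-- the segment from `z` to `w`, parametrised on `[0,1]` -/
noncomputable def seg (z w : ℂ) (p : ℝ) : ℂ := z + p * (w - z)

lemma deriv_seg (z w : ℂ) (p : ℝ) : deriv (seg z w) p = w - z := by
  have h1 : HasDerivAt (fun p : ℝ => (p : ℂ)) 1 p := Complex.ofRealCLM.hasDerivAt
  have h2 : HasDerivAt (seg z w) (1 * (w - z)) p := (h1.mul_const (w - z)).const_add z
  rw [h2.deriv, one_mul]

lemma inverse_exists {f f' : ℝ → ℝ} (hf : ∀ p ∈ Icc (0:ℝ) 1, HasDerivAt f (f' p) p)
    (hpos : ∀ p ∈ Icc (0:ℝ) 1, 0 < f' p) :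
    ∃ φ : ℝ → ℝ, ∀ y ∈ Ioo (f 0) (f 1), φ y ∈ Ioo (0:ℝ) 1 ∧ f (φ y) = y ∧
      HasDerivAt φ (f' (φ y))⁻¹ y := by
  have hmono := strictMono_of_deriv hf hpos
  have hcont : ContinuousOn f (Icc 0 1) := fun p hp => (hf p hp).continuousAt.continuousWithinAt
  have hex : ∀ y ∈ Icc (f 0) (f 1), ∃ p ∈ Icc (0:ℝ) 1, f p = y :=
    fun y hy => intermediate_value_Icc zero_le_one hcont hy
  choose! φ hφ hfφ using hex
  have hI : ∀ y ∈ Ioo (f 0) (f 1), y ∈ Icc (f 0) (f 1) := fun y hy => ⟨hy.1.le, hy.2.le⟩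
  have hφI : ∀ y ∈ Ioo (f 0) (f 1), φ y ∈ Ioo (0:ℝ) 1 := by
    intro y hy
    have h1 := hφ y (hI y hy)
    have h2 := hfφ y (hI y hy)
    constructor
    · rcases eq_or_lt_of_le h1.1 with h | h
      · rw [← h] at h2
        exact absurd hy.1 (by rw [h2]; exact lt_irrefl _)
      · exact h
    · rcases eq_or_lt_of_le h1.2 with h | h
      · rw [h] at h2
        exact absurd hy.2 (by rw [h2]; exact lt_irrefl _)
      · exact h
  refine ⟨φ, fun y hy => ⟨hφI y hy, hfφ y (hI y hy), ?_⟩⟩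
  have hp := hφI y hy
  have hpI : φ y ∈ Icc (0:ℝ) 1 := ⟨hp.1.le, hp.2.le⟩
  have hfy := hfφ y (hI y hy)
  refine HasDerivAt.of_local_left_inverse ?_ (hf _ hpI) (hpos _ hpI).ne' ?_
  · -- continuity
    rw [Metric.continuousAt_iff]
    intro ε hε
    set δ := min (ε / 2) (min (φ y / 2) ((1 - φ y) / 2)) with hδ
    have hδ0 : 0 < δ := by
      have := hp.1; have := hp.2
      exact lt_min (by linarith) (lt_min (by linarith) (by linarith))
    have d1 : δ ≤ ε / 2 := min_le_left _ _
    have d2 : δ ≤ φ y / 2 := (min_le_right _ _).trans (min_le_left _ _)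
    have d3 : δ ≤ (1 - φ y) / 2 := (min_le_right _ _).trans (min_le_right _ _)
    have m1 : φ y - δ ∈ Icc (0:ℝ) 1 := ⟨by linarith [hp.1], by linarith [hp.2]⟩
    have m2 : φ y + δ ∈ Icc (0:ℝ) 1 := ⟨by linarith [hp.1], by linarith [hp.2]⟩
    have f1 : f (φ y - δ) < y := by
      have := hmono m1 hpI (by linarith); rwa [hfy] at this
    have f2 : y < f (φ y + δ) := by
      have := hmono hpI m2 (by linarith); rwa [hfy] at this
    refine ⟨min (y - f (φ y - δ)) (f (φ y + δ) - y), lt_min (by linarith) (by linarith), ?_⟩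
    intro z hz
    rw [Real.dist_eq] at hz
    have hz1 := (abs_lt.1 (hz.trans_le (min_le_left _ _))).1
    have hz2 := (abs_lt.1 (hz.trans_le (min_le_right _ _))).2
    have g1 : f (φ y - δ) < z := by linarith
    have g2 : z < f (φ y + δ) := by linarith
    have h0le : f 0 ≤ f (φ y - δ) := hmono.monotoneOn zero_mem_I m1 m1.1
    have h1le : f (φ y + δ) ≤ f 1 := hmono.monotoneOn m2 one_mem_I m2.2
    have hzI : z ∈ Icc (f 0) (f 1) := ⟨by linarith, by linarith⟩
    have k1 : φ y - δ < φ z := by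
      by_contra hcon
      push Not at hcon
      have := hmono.monotoneOn (hφ z hzI) m1 hcon
      rw [hfφ z hzI] at this
      linarith
    have k2 : φ z < φ y + δ := by
      by_contra hcon
      push Not at hcon
      have := hmono.monotoneOn m2 (hφ z hzI) hcon
      rw [hfφ z hzI] at this
      linarith
    rw [Real.dist_eq, abs_lt]
    constructor <;> linarith
  · filter_upwards [Ioo_mem_nhds hy.1 hy.2] with z hz
    exact hfφ z (hI z hz)

section
variable {T t0 R h K : ℝ} {g : Fin 3 → ℝ → ℝ → ℂ}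

/-- the scaled height of the arm at scaled distance at most `s2` -/
lemma HypE.height (H : HypE T t0 R h K g) {t M s s2 q : ℝ} (ht : t ∈ Ico t0 T)
    (hM : xa g t < M * rr T t) (hs : M + 1 ≤ s) (hs2 : s ≤ s2) (hq : q ∈ Icc (0:ℝ) 1)
    (hx : (g 2 t q).re = s * rr T t) :
    (g 2 t q).im / rr T t ≤ Real.exp (Real.log (rr T t) / 5000) * Real.exp (s2 ^ 2) := by
  have htI := H.mem ht
  have hsc := H.secAt ht
  have hc := H.concl_all ht
  have hg := H.good_all t ht
  have hya := H.qf.ya_pos htI hsc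
  have hr := rr_pos ht.2
  have s2' := sqrt3_bounds.2
  have hMpos : 0 < M := by
    by_contra hcon
    push Not at hcon
    have := hc.big
    nlinarith
  have hy : ya g t ≤ 0.7183 * rr T t := by
    have h1 := hc.big
    have h2 := hc.prod
    have : (41 / 40 * rr T t) * ya g t ≤ (41 / 40 * rr T t) * (0.7183 * rr T t) := by nlinarith
    exact le_of_mul_le_mul_left this (by positivity)
  have hXa : xa g t + √3 / 3 * ya g t ≤ s * rr T t := by
    have : √3 / 3 * ya g t ≤ 0.58 * (0.7183 * rr T t) :=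
      mul_le_mul (by linarith) hy hya.le (by norm_num)
    nlinarith
  have hN := H.qf.Nq_lower (le_refl T) htI hsc (X := s * rr T t) (q := q) hq
    (fun p hp => (H.x0_abs ht hc.yx.le p hp).trans hXa)
    (fun p hp => by
      have hpI : p ∈ Icc (0:ℝ) 1 := ⟨hp.1, hp.2.trans hq.2⟩
      have h1 := (H.qf.x2_strict htI hsc).monotoneOn hpI hq hp.2
      simp only [hx] at h1
      have h2 := hc.x2 p hpI
      rw [abs_of_nonneg ((by positivity : (0:ℝ) ≤ 1019 / 1000 * rr T t).trans h2)]
      exact h1)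
  have hN1 := hN.trans hg.2.2
  set r := rr T t with hrd
  have hu : 2 * (T - t) = r ^ 2 := (rr_sq ht.2.le).symm
  have e1 : Gs T (5001 / 10000) (49 / 50) t (s * r) =
      Real.exp (-(5001 / 5000 * Real.log r) - 49 / 100 * s ^ 2) := by
    rw [Gs, hu]
    congr 1
    rw [show 4 * (T - t) = 2 * r ^ 2 by linarith, Real.log_pow]
    push_cast
    field_simp
    ring
  have e2 : Real.exp (-(5001 / 5000 * Real.log r) - 49 / 100 * s ^ 2) *
      (Real.exp (Real.log r / 5000) * Real.exp (s2 ^ 2)) = r⁻¹ * Real.exp (s2 ^ 2 - 49 / 100 * s ^ 2) := by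
    have : r⁻¹ = Real.exp (-Real.log r) := by rw [Real.exp_neg, Real.exp_log hr]
    rw [this, ← Real.exp_add, ← Real.exp_add, ← Real.exp_add]
    congr 1
    ring
  have e3 : 1 ≤ Real.exp (s2 ^ 2 - 49 / 100 * s ^ 2) := by
    apply Real.one_le_exp
    nlinarith
  -- multiply by the weight
  have hG := Gs_pos T (5001 / 10000) (49 / 50) t (s * r)
  rw [div_le_iff₀ hr]
  have h7 : Gs T (5001 / 10000) (49 / 50) t (s * r) * (g 2 t q).im ≤
      Gs T (5001 / 10000) (49 / 50) t (s * r) *
        (Real.exp (Real.log r / 5000) * Real.exp (s2 ^ 2) * r) := by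
    rw [e1, ← mul_assoc, e2, mul_right_comm, inv_mul_cancel₀ hr.ne', one_mul]
    rw [e1] at hN1
    linarith
  exact le_of_mul_le_mul_left h7 hG

theorem HypE.arm_converges (H : HypE T t0 R h K g) {M : ℝ} {t : ℕ → ℝ}
    (ht : ∀ n, t n ∈ Ico t0 T) (hlim : Tendsto t atTop (𝓝 T))
    (hM : ∀ n, xa g (t n) < M * rr T (t n)) {s1 s2 : ℝ} (hs1 : M + 1 < s1) (hs12 : s1 < s2) :
    SubarcsConverge (fun n p => g 2 (t n) p / (rr T (t n) : ℂ)) (seg s1 s2) := by
  have hK := H.Kpos
  have hW := H.hW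
  have hlimw : Tendsto t atTop (𝓝[<] T) :=
    tendsto_nhdsWithin_iff.2 ⟨hlim, Eventually.of_forall (fun n => (ht n).2)⟩
  have hr0 : Tendsto (fun n => rr T (t n)) atTop (𝓝 0) := (tendsto_rr T).comp hlimw
  have hrpos : ∀ n, 0 < rr T (t n) := fun n => rr_pos (ht n).2
  have hMpos : 0 < M := by
    by_contra hcon
    push Not at hcon
    have h1 := (H.concl_all (ht 0)).big
    have h2 := hM 0
    have h3 := hrpos 0
    nlinarith
  -- inverse functions
  have hinv : ∀ n, ∃ φ : ℝ → ℝ, ∀ y ∈ Ioo ((g 2 (t n) 0).re) ((g 2 (t n) 1).re),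
      φ y ∈ Ioo (0:ℝ) 1 ∧ (g 2 (t n) (φ y)).re = y ∧
      HasDerivAt φ ((dp (g 2) (t n) (φ y)).re)⁻¹ y := fun n =>
    inverse_exists (f := fun p => (g 2 (t n) p).re) (f' := fun p => (dp (g 2) (t n) p).re)
      (fun p _ => H.qf.dre (H.mem (ht n)) 2 p)
      (fun p hp => H.qf.dp2_re_pos (H.mem (ht n)) (H.secAt (ht n)) hp)
  choose φ hφ using hinv
  set θ : ℕ → ℝ → ℝ := fun n p => φ n ((s1 + p * (s2 - s1)) * rr T (t n)) with hθ
  -- eventually in range
  have hev : ∀ᶠ n in atTop, s2 * rr T (t n) < R := by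
    have : Tendsto (fun n => s2 * rr T (t n)) atTop (𝓝 0) := by simpa using hr0.const_mul s2
    exact this.eventually (gt_mem_nhds (by linarith [H.hR]))
  have hrange : ∀ n, s2 * rr T (t n) < R → ∀ p ∈ Icc (0:ℝ) 1,
      (s1 + p * (s2 - s1)) * rr T (t n) ∈ Ioo ((g 2 (t n) 0).re) ((g 2 (t n) 1).re) := by
    intro n hn p hp
    have hr := hrpos n
    have e1 : s1 ≤ s1 + p * (s2 - s1) := by nlinarith [hp.1]
    have e2 : s1 + p * (s2 - s1) ≤ s2 := by nlinarith [hp.2]
    have hP : (g 2 (t n) 1).re = R := by rw [H.qf.pEnd _ (H.mem (ht n))]; simp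
    rw [H.qf.re_zero (H.mem (ht n)), hP]
    constructor
    · have := hM n
      nlinarith
    · nlinarith
  have hθd : ∀ n, s2 * rr T (t n) < R → ∀ p ∈ Icc (0:ℝ) 1,
      HasDerivAt (θ n) (((dp (g 2) (t n) (θ n p)).re)⁻¹ * ((s2 - s1) * rr T (t n))) p := by
    intro n hn p hp
    have h1 := (hφ n _ (hrange n hn p hp)).2.2
    have h2 : HasDerivAt (fun p : ℝ => (s1 + p * (s2 - s1)) * rr T (t n))
        ((s2 - s1) * rr T (t n)) p := by
      have := (((hasDerivAt_id' p).mul_const (s2 - s1)).const_add s1).mul_const (rr T (t n))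
      exact this.congr_deriv (by ring)
    exact h1.comp p h2
  refine ⟨θ, ?_, ?_⟩
  · filter_upwards [hev] with n hn p hp
    have h1 := (hφ n _ (hrange n hn p hp)).1
    refine ⟨⟨h1.1.le, h1.2.le⟩, ?_⟩
    rw [(hθd n hn p hp).deriv]
    have h2 := H.qf.dp2_re_pos (H.mem (ht n)) (H.secAt (ht n)) (p := θ n p) ⟨h1.1.le, h1.2.le⟩
    have h3 := hrpos n
    have h4 : 0 < s2 - s1 := by linarith
    positivity
  · intro ε hε
    -- error bounds
    set E : ℕ → ℝ := fun n => Real.exp (Real.log (rr T (t n)) / 5000) * Real.exp (s2 ^ 2) with hE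
    have hE0 : Tendsto E atTop (𝓝 0) := by
      have h1 : Tendsto (fun n => rr T (t n)) atTop (𝓝[>] 0) :=
        tendsto_nhdsWithin_iff.2 ⟨hr0, Eventually.of_forall (fun n => hrpos n)⟩
      have h2 : Tendsto (fun n => Real.log (rr T (t n))) atTop atBot :=
        Real.tendsto_log_nhdsGT_zero.comp h1
      have h3 : Tendsto (fun n => Real.log (rr T (t n)) / 5000) atTop atBot :=
        h2.atBot_div_const (by norm_num)
      have h4 := Real.tendsto_exp_atBot.comp h3
      simpa using h4.mul_const (Real.exp (s2 ^ 2))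
    set D := 2 * (K * (12 * M / π)) * (s2 - s1) with hD
    have hDpos : 0 < D := by
      have : 0 < s2 - s1 := by linarith
      have := Real.pi_pos
      positivity
    have hev2 : ∀ᶠ n in atTop, E n < ε := hE0.eventually (gt_mem_nhds hε)
    have hev3 : ∀ᶠ n in atTop, D * E n < ε := by
      have : Tendsto (fun n => D * E n) atTop (𝓝 0) := by simpa using hE0.const_mul D
      exact this.eventually (gt_mem_nhds hε)
    filter_upwards [hev, hev2, hev3] with n hn h2 h3 p hp
    have hr := hrpos n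
    have htI := H.mem (ht n)
    have hsc := H.secAt (ht n)
    obtain ⟨q1, q2, q3⟩ := hφ n _ (hrange n hn p hp)
    have hqI : θ n p ∈ Icc (0:ℝ) 1 := ⟨q1.1.le, q1.2.le⟩
    have e1 : s1 ≤ s1 + p * (s2 - s1) := by nlinarith [hp.1]
    have e2 : s1 + p * (s2 - s1) ≤ s2 := by nlinarith [hp.2]
    have hh := H.height (ht n) (hM n) (s := s1 + p * (s2 - s1)) (s2 := s2) (by linarith) e2 hqI q2
    have hy0 : 0 ≤ (g 2 (t n) (θ n p)).im := by
      have := H.qf.y2_mono htI hsc zero_mem_I hqI hqI.1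
      rw [H.qf.im_zero htI] at this
      exact (H.qf.ya_pos htI hsc).le.trans this
    have hyr0 : 0 ≤ (g 2 (t n) (θ n p)).im / rr T (t n) := div_nonneg hy0 hr.le
    constructor
    · have e3 : g 2 (t n) (θ n p) / (rr T (t n) : ℂ) - seg s1 s2 p =
          (((g 2 (t n) (θ n p)).im / rr T (t n) : ℝ) : ℂ) * Complex.I := by
        apply Complex.ext
        · rw [Complex.sub_re, Complex.div_ofReal_re, q2]
          simp only [seg, Complex.add_re, Complex.mul_re, Complex.ofReal_re, Complex.ofReal_im,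
            Complex.sub_re, Complex.sub_im, Complex.I_re, Complex.I_im]
          field_simp
          ring
        · rw [Complex.sub_im, Complex.div_ofReal_im]
          simp [seg]
      rw [e3, norm_mul, Complex.norm_I, mul_one, Complex.norm_real, Real.norm_eq_abs,
        abs_of_nonneg hyr0]
      exact hh.trans_lt h2
    · -- derivative
      have d1 := (H.qf.edge 2).sm.hasDerivAt_p htI (θ n p)
      have d2 := hθd n hn p hp
      have d3 : HasDerivAt (fun q => g 2 (t n) (θ n q) / (rr T (t n) : ℂ))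
          ((((dp (g 2) (t n) (θ n p)).re)⁻¹ * ((s2 - s1) * rr T (t n)) : ℝ) •
            dp (g 2) (t n) (θ n p) / (rr T (t n) : ℂ)) p := by
        exact (HasDerivAt.scomp p d1 d2).div_const _
      rw [d3.deriv, deriv_seg]
      have hre := H.qf.dp2_re_pos htI hsc hqI
      set Z := dp (g 2) (t n) (θ n p) with hZ
      set r := rr T (t n) with hrd
      have e4 : ((Z.re)⁻¹ * ((s2 - s1) * r) : ℝ) • Z / (r : ℂ) - ((s2 : ℂ) - s1) =
          ((Z.im / Z.re * (s2 - s1) : ℝ) : ℂ) * Complex.I := by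
        apply Complex.ext
        · rw [Complex.sub_re, Complex.div_ofReal_re, Complex.real_smul, Complex.re_ofReal_mul]
          simp only [Complex.mul_re, Complex.ofReal_re, Complex.ofReal_im,
            Complex.sub_re, Complex.I_re, Complex.I_im]
          field_simp
          ring
        · rw [Complex.sub_im, Complex.div_ofReal_im, Complex.real_smul, Complex.im_ofReal_mul]
          simp only [Complex.mul_im, Complex.ofReal_re, Complex.ofReal_im,
            Complex.sub_im, Complex.I_re, Complex.I_im]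
          field_simp
          ring
      rw [e4, norm_mul, Complex.norm_I, mul_one, Complex.norm_real, Real.norm_eq_abs]
      -- bound the slope
      obtain ⟨p1, p2⟩ := polar2 (g := g) (t n) (θ n p)
      have hth := H.qf.th_mem htI hsc 2 hqI
      have hv := H.qf.norm_pos htI 2 hqI
      have hcos := cos_ge_half hth.1 hth.2
      have hsin := sin_nonneg3 hth.1 hth.2
      have hsinle := Real.sin_le hth.1
      have hWt := hW (t n) (ht n) 2 (θ n p) hqI
      have hyM := H.yM_lower (ht n) (hM n)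
      have hyMpos := H.qf.yM_pos htI hsc
      have hslope : Z.im / Z.re ≤ 2 * (K * (12 * M / π)) *
          ((g 2 (t n) (θ n p)).im / r) := by
        have a1 : Z.im / Z.re ≤ 2 * th (cang 2) (g 2) (t n) (θ n p) := by
          rw [p1, p2, mul_div_mul_left _ _ hv.ne', div_le_iff₀ (by linarith)]
          nlinarith
        have a2 : K / yM g (t n) * (g 2 (t n) (θ n p)).im ≤
            K * (12 * M / π) * ((g 2 (t n) (θ n p)).im / r) := by
          have a3 : 1 / yM g (t n) ≤ 12 * M / π / r := by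
            rw [div_div, div_le_div_iff₀ hyMpos (by positivity)]
            nlinarith
          have a4 := mul_le_mul_of_nonneg_left a3 (mul_nonneg hK.le hy0)
          calc K / yM g (t n) * (g 2 (t n) (θ n p)).im
              = K * (g 2 (t n) (θ n p)).im * (1 / yM g (t n)) := by ring
            _ ≤ K * (g 2 (t n) (θ n p)).im * (12 * M / π / r) := a4
            _ = _ := by ring
        linarith
      have hs0 : 0 ≤ Z.im / Z.re := by
        have : 0 ≤ Z.im := by rw [p2]; positivity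
        positivity
      have hs21 : 0 < s2 - s1 := by linarith
      rw [abs_of_nonneg (by positivity)]
      have hKM : 0 ≤ 2 * (K * (12 * M / π)) := by positivity
      calc Z.im / Z.re * (s2 - s1)
          ≤ 2 * (K * (12 * M / π)) * ((g 2 (t n) (θ n p)).im / r) * (s2 - s1) :=
            mul_le_mul_of_nonneg_right hslope hs21.le
        _ ≤ 2 * (K * (12 * M / π)) * E n * (s2 - s1) :=
            mul_le_mul_of_nonneg_right (mul_le_mul_of_nonneg_left hh hKM) hs21.le
        _ = D * E n := by rw [hD]; ring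
        _ < ε := h3

/-- existence of the sequence of times -/
theorem HypE.main (H : HypE T t0 R h K g) : ∃ (S : ℝ) (t : ℕ → ℝ), (∀ n, t n ∈ Ico t0 T) ∧
    Tendsto t atTop (𝓝 T) ∧ ∀ s1 s2 : ℝ, S < s1 → s1 < s2 →
      SubarcsConverge (fun n p => g 2 (t n) p / (rr T (t n) : ℂ)) (seg s1 s2) := by
  obtain ⟨M, hM, hseq⟩ := H.bounded_seq
  have hTn : ∀ n : ℕ, max t0 (T - 1 / (n + 1)) ∈ Ico t0 T := by
    intro n
    refine ⟨le_max_left _ _, max_lt H.t0mem.2 ?_⟩
    have : (0:ℝ) < 1 / (n + 1) := by positivity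
    linarith
  choose t ht hxt using fun n : ℕ => hseq (max t0 (T - 1 / (n + 1))) (hTn n)
  have htI : ∀ n, t n ∈ Ico t0 T := fun n => ⟨(hTn n).1.trans (ht n).1, (ht n).2⟩
  have hlim : Tendsto t atTop (𝓝 T) := by
    refine tendsto_of_tendsto_of_tendsto_of_le_of_le (g := fun n : ℕ => T - 1 / ((n:ℝ) + 1))
      (h := fun _ => T) ?_ tendsto_const_nhds ?_ ?_
    · have := (tendsto_one_div_add_atTop_nhds_zero_nat (𝕜 := ℝ)).const_sub T
      simpa using this
    · intro n
      exact (le_max_right _ _).trans (ht n).1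
    · intro n
      exact (ht n).2.le
  exact ⟨M + 1, t, htI, hlim, fun s1 s2 h1 h2 => H.arm_converges htI hlim hxt h1 h2⟩

end

end Run7.h661y
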