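import Pool.Agent.Run7.h661.Y.Gauss

/-!
# The continuity argument
-/

open Set Filter Topology MeasureTheory
open scoped ContDiff Real

namespace Run7.h661y

/-- the hypotheses: the flow of the quarter on `(0,T1)` and its behaviour as `t → 0` -/
structure Hyp (T1 T R h K : ℝ) (g : Fin 3 → ℝ → ℝ → ℂ) : Prop where
  qf : QF T1 R h g
  T1pos : 0 < T1
  T1T : T1 ≤ T
  TT : 2 * T = 1
  sec : ∀ t ∈ Ioo 0 T1, SecAt g t
  hK : π / 3 ≤ K
  W0 : ∀ ε > 0, ∀ᶠ s in 𝓝[>] (0:ℝ), ∀ i, ∀ p ∈ Icc (0:ℝ) 1,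
      th (cang i) (g i) s p - K / yM g s * (g i s p).im ≤ ε
  cap : ∀ ε > 0, ∀ᶠ s in 𝓝[>] (0:ℝ), ∀ p ∈ Icc (0:ℝ) 1,
      Real.sin (π / 3 - th (cang 1) (g 1) s p) - √3 / 2 / rr T s * (g 1 s p).re ≤ ε
  A0 : Tendsto (Aq g) (𝓝[>] 0) (𝓝 (π / 3 * T))
  xa1 : ∀ᶠ s in 𝓝[>] (0:ℝ), 1 ≤ xa g s
  hR : 1000 ≤ R
  hh : h ≤ 1 / 10000

/-- the statement propagated in time -/
def Good (T : ℝ) (g : Fin 3 → ℝ → ℝ → ℂ) (t : ℝ) : Prop :=
  rr T t ≤ xa g t ∧ ya g t ≤ xa g t ∧ Nq T g t ≤ 1 / 2500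

/-- continuation -/
lemma continuation {a b : ℝ} {P : ℝ → Prop} (_hab : a ≤ b)
    (hclosed : IsClosed ({t | P t} ∩ Icc a b)) (ha : P a)
    (hstep : ∀ x ∈ Ico a b, (∀ τ ∈ Icc a x, P τ) → ∀ᶠ τ in 𝓝[>] x, P τ) :
    ∀ t ∈ Icc a b, P t := by
  have key : Icc a b ⊆ {t | ∀ τ ∈ Icc a t, P τ} := by
    apply IsClosed.Icc_subset_of_forall_exists_gt
    · apply IsSeqClosed.isClosed
      intro u x hu hx
      have hxI : x ∈ Icc a b := isClosed_Icc.mem_of_tendsto hx (Eventually.of_forall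
        (fun n => (hu n).2))
      refine ⟨?_, hxI⟩
      intro τ hτ
      rcases eq_or_lt_of_le hτ.2 with h | h
      · rw [h]
        have : x ∈ {t | P t} ∩ Icc a b := by
          apply hclosed.mem_of_tendsto hx (Eventually.of_forall (fun n => ?_))
          exact ⟨(hu n).1 (u n) ⟨(hu n).2.1, le_refl _⟩, (hu n).2⟩
        exact this.1
      · have : ∀ᶠ n in atTop, τ < u n := hx.eventually (lt_mem_nhds h)
        obtain ⟨n, hn⟩ := this.exists
        exact (hu n).1 τ ⟨hτ.1, hn.le⟩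
    · intro τ hτ
      have : τ = a := le_antisymm hτ.2 hτ.1
      rw [this]; exact ha
    · intro x hx y hy
      obtain ⟨e, he, hsub⟩ := (mem_nhdsGT_iff_exists_Ioo_subset).1 (hstep x hx.2 hx.1)
      set z := min ((x + e) / 2) y with hz
      have hxe : x < e := he
      have hxz : x < z := lt_min (by linarith) hy
      have hze : z < e := (min_le_left _ _).trans_lt (by linarith)
      refine ⟨z, ?_, hxz, min_le_right _ _⟩
      intro τ hτ
      rcases le_or_gt τ x with h | h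
      · exact hx.1 τ ⟨hτ.1, h⟩
      · exact hsub ⟨h, hτ.2.trans_lt hze⟩
  intro t ht
  exact key ht t ⟨ht.1, le_refl _⟩

/-! numerical facts -/

lemma sqrt3_bounds : (1.73205 : ℝ) < √3 ∧ √3 < 1.73206 := by
  constructor
  · apply Real.lt_sqrt_of_sq_lt; norm_num
  · rw [Real.sqrt_lt' (by norm_num)]; norm_num

lemma pi_bounds : (3.1415 : ℝ) < π ∧ π < 3.1416 := ⟨Real.pi_gt_d4, Real.pi_lt_d4⟩

lemma num_prod {x y r : ℝ} (hx : 0 < x) (hy : 0 < y) (hyx : y ≤ x)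
    (hlow : x * y - √3 / 6 * y ^ 2 ≤ π / 6 * r ^ 2) : x * y ≤ 7362 / 10000 * r ^ 2 := by
  have s2 := sqrt3_bounds.2
  have p2 := pi_bounds.2
  have e1 : y ^ 2 ≤ x * y := by nlinarith
  have e2 : √3 / 6 * y ^ 2 ≤ 0.28868 * (x * y) :=
    mul_le_mul (by linarith) e1 (sq_nonneg y) (by norm_num)
  have e3 : π / 6 * r ^ 2 ≤ 0.5236 * r ^ 2 :=
    mul_le_mul_of_nonneg_right (by linarith) (sq_nonneg r)
  have e4 : 0 < x * y := mul_pos hx hy
  have e5 := sq_nonneg r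
  linarith

lemma num_big {x y r : ℝ} (hr : 0 < r) (hx : 0 < x) (hy : 0 < y) (hcon : x ≤ 41 / 40 * r)
    (hy1 : y ≤ r / 100)
    (hup : π / 6 * r ^ 2 ≤ (x + √3 / 3 * y) * y + √3 / 6 * x ^ 3 / r + √3 / 10 * x ^ 5 / r ^ 3) :
    False := by
  have s1 := sqrt3_bounds.1
  have s2 := sqrt3_bounds.2
  have p1 := pi_bounds.1
  have k1 : x ^ 3 ≤ (41 / 40 * r) ^ 3 := pow_le_pow_left₀ hx.le hcon 3
  have k2 : x ^ 5 ≤ (41 / 40 * r) ^ 5 := pow_le_pow_left₀ hx.le hcon 5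
  have hr3 : 0 < r ^ 3 := by positivity
  have hr5 : 0 < r ^ 5 := by positivity
  have hr2 : 0 < r ^ 2 := by positivity
  have k3 : √3 / 6 * x ^ 3 / r ≤ 0.31088 * r ^ 2 := by
    rw [div_le_iff₀ hr]
    have h1 : √3 / 6 * x ^ 3 ≤ 1.73206 / 6 * (41 / 40 * r) ^ 3 :=
      mul_le_mul (by linarith) k1 (by positivity) (by norm_num)
    have h2 : 1.73206 / 6 * (41 / 40 * r) ^ 3 = (1.73206 / 6 * (41 / 40) ^ 3) * r ^ 3 := by ring
    have h3 : (1.73206 / 6 * (41 / 40) ^ 3) * r ^ 3 ≤ 0.31088 * r ^ 3 :=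
      mul_le_mul_of_nonneg_right (by norm_num) hr3.le
    have h4 : 0.31088 * r ^ 2 * r = 0.31088 * r ^ 3 := by ring
    linarith
  have k4 : √3 / 10 * x ^ 5 / r ^ 3 ≤ 0.19598 * r ^ 2 := by
    rw [div_le_iff₀ hr3]
    have h1 : √3 / 10 * x ^ 5 ≤ 1.73206 / 10 * (41 / 40 * r) ^ 5 :=
      mul_le_mul (by linarith) k2 (by positivity) (by norm_num)
    have h2 : 1.73206 / 10 * (41 / 40 * r) ^ 5 = (1.73206 / 10 * (41 / 40) ^ 5) * r ^ 5 := by ring
    have h3 : (1.73206 / 10 * (41 / 40) ^ 5) * r ^ 5 ≤ 0.19598 * r ^ 5 :=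
      mul_le_mul_of_nonneg_right (by norm_num) hr5.le
    have h4 : 0.19598 * r ^ 2 * r ^ 3 = 0.19598 * r ^ 5 := by ring
    linarith
  have k5 : (x + √3 / 3 * y) * y ≤ 0.0104 * r ^ 2 := by
    have a0 : √3 / 3 * y ≤ 0.6 * (r / 100) := mul_le_mul (by linarith) hy1 hy.le (by norm_num)
    have a1 : x + √3 / 3 * y ≤ 1.031 * r := by linarith
    have a2 := mul_le_mul a1 hy1 hy.le (by positivity : (0:ℝ) ≤ 1.031 * r)
    have a3 : 1.031 * r * (r / 100) = 0.01031 * r ^ 2 := by ring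
    linarith
  have k6 : 0.5235 * r ^ 2 ≤ π / 6 * r ^ 2 :=
    mul_le_mul_of_nonneg_right (by linarith) (sq_nonneg r)
  linarith

/-- the weight is not too small at the corner -/
lemma num_gauss {T t X : ℝ} (ht : t < T) (hr1 : rr T t ≤ 1) (hX0 : 0 ≤ X)
    (hX : X ≤ 2.43 * rr T t) :
    (rr T t)⁻¹ * (1 / 25) ≤ Gs T (5001 / 10000) (49 / 50) t X := by
  have hr := rr_pos ht
  have hu : 2 * (T - t) = rr T t ^ 2 := (rr_sq ht.le).symm
  set r := rr T t with hrdef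
  have e1 : Gs T (5001 / 10000) (49 / 50) t X =
      Real.exp (-(5001 / 10000 * Real.log (r ^ 2))) *
      Real.exp (-(49 / 50 * X ^ 2 / (2 * r ^ 2))) := by
    rw [Gs, ← Real.exp_add, ← hu]
    congr 1
    rw [show 2 * (2 * (T - t)) = 4 * (T - t) by ring]
    ring
  have e2 : r⁻¹ ≤ Real.exp (-(5001 / 10000 * Real.log (r ^ 2))) := by
    have hlog : Real.log (r ^ 2) = 2 * Real.log r := by rw [Real.log_pow]; norm_num
    have hle : Real.log r ≤ 0 := Real.log_nonpos hr.le hr1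
    calc r⁻¹ = Real.exp (-Real.log r) := by rw [Real.exp_neg, Real.exp_log hr]
      _ ≤ _ := by
        rw [Real.exp_le_exp, hlog]
        linarith
  have e3 : (1:ℝ) / 25 ≤ Real.exp (-(49 / 50 * X ^ 2 / (2 * r ^ 2))) := by
    have k2 : X ^ 2 ≤ (2.43 * r) ^ 2 := pow_le_pow_left₀ hX0 hX 2
    have k3 : 49 / 50 * X ^ 2 / (2 * r ^ 2) ≤ 3 := by
      rw [div_le_iff₀ (by positivity)]
      nlinarith
    have k4 : Real.exp 3 ≤ 25 := by
      have h1 := Real.exp_one_lt_d9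
      have h3 : Real.exp 3 = Real.exp 1 ^ 3 := by rw [← Real.exp_nat_mul]; norm_num
      rw [h3]
      calc Real.exp 1 ^ 3 ≤ (2.7182818286 : ℝ) ^ 3 :=
            pow_le_pow_left₀ (Real.exp_pos 1).le h1.le 3
        _ ≤ 25 := by norm_num
    calc (1:ℝ) / 25 ≤ (Real.exp 3)⁻¹ := by
          rw [one_div]; exact inv_anti₀ (Real.exp_pos _) k4
      _ = Real.exp (-3) := (Real.exp_neg 3).symm
      _ ≤ _ := by rw [Real.exp_le_exp]; linarith
  rw [e1]
  exact mul_le_mul e2 e3 (by norm_num) (Real.exp_pos _).le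

section
variable {T T1 R h K : ℝ} {g : Fin 3 → ℝ → ℝ → ℂ}

lemma Hyp.mem (_H : Hyp T1 T R h K g) {t : ℝ} (ht : t ∈ Ioo 0 T1) : t ∈ Ioo 0 T1 := ht

lemma Hyp.ltT (H : Hyp T1 T R h K g) {t : ℝ} (ht : t ∈ Ioo 0 T1) : t < T := ht.2.trans_le H.T1T

lemma Hyp.secAt (H : Hyp T1 T R h K g) {t : ℝ} (ht : t ∈ Ioo 0 T1) : SecAt g t := H.sec t ht

lemma Hyp.rr_le (H : Hyp T1 T R h K g) {t : ℝ} (ht : t ∈ Ioo 0 T1) : rr T t ≤ 1 := by
  have : rr T 0 = 1 := by rw [rr, sub_zero, H.TT, Real.sqrt_one]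
  rw [← this]; exact rr_anti ht.1.le

lemma Hyp.area (H : Hyp T1 T R h K g) {t : ℝ} (ht : t ∈ Ioo 0 T1) :
    Aq g t = π / 6 * rr T t ^ 2 := by
  rw [H.qf.Aq_eq0 H.sec H.A0 t ht, rr_sq (H.ltT ht).le]; ring

lemma Hyp.W (H : Hyp T1 T R h K g) : ∀ t ∈ Ioo 0 T1, ∀ i, ∀ p ∈ Icc (0:ℝ) 1,
      th (cang i) (g i) t p ≤ K / yM g t * (g i t p).im :=
  H.qf.W_bound0 H.sec H.hK H.W0

/-- conclusions at one time -/
structure Concl (T t : ℝ) (g : Fin 3 → ℝ → ℝ → ℂ) : Prop where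
  prod : xa g t * ya g t ≤ 7362 / 10000 * rr T t ^ 2
  big : 41 / 40 * rr T t < xa g t
  yx : ya g t < xa g t
  x0 : ∀ p ∈ Icc (0:ℝ) 1, 1019 / 1000 * rr T t ≤ (g 0 t p).re
  x2 : ∀ p ∈ Icc (0:ℝ) 1, 1019 / 1000 * rr T t ≤ (g 2 t p).re

lemma Hyp.x0_abs (H : Hyp T1 T R h K g) {t : ℝ} (ht : t ∈ Ioo 0 T1) (hyx : ya g t ≤ xa g t) :
    ∀ p ∈ Icc (0:ℝ) 1, |(g 0 t p).re| ≤ xa g t + √3 / 3 * ya g t := by
  intro p hp
  obtain ⟨h1, h2⟩ := H.qf.xbound (H.mem ht) (H.secAt ht) hp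
  have hy := H.qf.ya_pos (H.mem ht) (H.secAt ht)
  have s1 := sqrt3_bounds.1
  have s2 := sqrt3_bounds.2
  rw [abs_le]
  constructor
  · nlinarith
  · exact h1

lemma Hyp.concl (H : Hyp T1 T R h K g) {t : ℝ} (ht : t ∈ Ioo 0 T1) (hg : Good T g t)
    (hD : ∀ p ∈ Icc (0:ℝ) 1, Real.sin (π / 3 - th (cang 1) (g 1) t p) ≤
      √3 / 2 / rr T t * (g 1 t p).re) : Concl T t g := by
  have htI := H.mem ht
  have hs := H.secAt ht
  obtain ⟨g1, g2, g3⟩ := hg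
  have hr := rr_pos (H.ltT ht)
  have hr1 := H.rr_le ht
  have hya := H.qf.ya_pos htI hs
  have hA := H.area ht
  have hlow := H.qf.Aq_lower htI hs
  have hup := H.qf.Aq_upper htI hs hr hD
  have s1 := sqrt3_bounds.1
  have s2 := sqrt3_bounds.2
  rw [hA] at hlow hup
  have hxpos : 0 < xa g t := hr.trans_le g1
  have prod := num_prod hxpos hya g2 hlow
  have thin : xa g t ≤ 2 * rr T t → ya g t ≤ rr T t / 100 := by
    intro hx2
    have hy2 : ya g t ≤ 7362 / 10000 * rr T t := by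
      have : rr T t * ya g t ≤ rr T t * (7362 / 10000 * rr T t) := by nlinarith
      exact le_of_mul_le_mul_left this hr
    have hN := H.qf.Nq_lower H.T1T htI hs (X := xa g t + √3 / 3 * ya g t) (q := 0) zero_mem_I
      (H.x0_abs ht g2) (fun p hp => by
        have : p = 0 := le_antisymm hp.2 hp.1
        rw [this, H.qf.re_zero htI, abs_of_pos hxpos]
        have : 0 ≤ √3 / 3 * ya g t := by positivity
        linarith)
    rw [H.qf.im_zero htI] at hN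
    have a0 : √3 / 3 * ya g t ≤ 0.58 * (7362 / 10000 * rr T t) :=
      mul_le_mul (by linarith) hy2 hya.le (by norm_num)
    have hG := num_gauss (H.ltT ht) hr1 (X := xa g t + √3 / 3 * ya g t) (by positivity) (by linarith)
    have h5 : (rr T t)⁻¹ * (1 / 25) * ya g t ≤ 1 / 2500 :=
      (mul_le_mul_of_nonneg_right hG hya.le).trans (hN.trans g3)
    have h6 : (rr T t)⁻¹ * (1 / 25) * ya g t = ya g t / (25 * rr T t) := by field_simp
    rw [h6, div_le_iff₀ (by positivity)] at h5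
    linarith
  have big : 41 / 40 * rr T t < xa g t := by
    by_contra hcon
    push Not at hcon
    exact num_big hr hxpos hya hcon (thin (by linarith)) hup
  have hylt : ya g t ≤ 0.7183 * rr T t := by
    have : (41 / 40 * rr T t) * ya g t ≤ (41 / 40 * rr T t) * (0.7183 * rr T t) := by nlinarith
    exact le_of_mul_le_mul_left this (by positivity)
  have yx : ya g t < xa g t := by linarith
  have x0 : ∀ p ∈ Icc (0:ℝ) 1, 1019 / 1000 * rr T t ≤ (g 0 t p).re := by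
    intro p hp
    have h2 := (H.qf.xbound htI hs hp).2
    rcases le_or_gt (xa g t) (2 * rr T t) with hx2 | hx2
    · have h3 : √3 / 3 * ya g t ≤ 0.58 * (rr T t / 100) :=
        mul_le_mul (by linarith) (thin hx2) hya.le (by norm_num)
      linarith
    · have h4 : ya g t ≤ 0.3682 * rr T t := by
        have : (2 * rr T t) * ya g t ≤ (2 * rr T t) * (0.3682 * rr T t) := by nlinarith
        exact le_of_mul_le_mul_left this (by positivity)
      have h3 : √3 / 3 * ya g t ≤ 0.58 * (0.3682 * rr T t) :=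
        mul_le_mul (by linarith) h4 hya.le (by norm_num)
      linarith
  have x2 : ∀ p ∈ Icc (0:ℝ) 1, 1019 / 1000 * rr T t ≤ (g 2 t p).re := by
    intro p hp
    have := (H.qf.x2_strict htI hs).monotoneOn zero_mem_I hp hp.1
    simp only [H.qf.re_zero htI] at this
    linarith
  exact ⟨prod, big, yx, x0, x2⟩

lemma Hyp.cont_xa (H : Hyp T1 T R h K g) {t : ℝ} (ht : t ∈ Ioo 0 T1) :
    ContinuousAt (xa g) t ∧ ContinuousAt (ya g) t ∧ ContinuousAt (rr T) t := by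
  exact ⟨(hasDerivAt_re ((H.qf.edge 0).sm.hasDerivAt_t ht 0)).continuousAt,
    (hasDerivAt_im ((H.qf.edge 0).sm.hasDerivAt_t ht 0)).continuousAt,
    (hasDerivAt_rr (H.ltT ht)).continuousAt⟩

lemma Hyp.cont_N (H : Hyp T1 T R h K g) {t : ℝ} (ht : t ∈ Ioo 0 T1) :
    ContinuousAt (Nq T g) t := by
  have hpos := SecAt.posAt H.qf ht (H.secAt ht)
  have h2 := func_deriv (H.qf.edge 2) ht (hpos 2)
    ((test_gauss T (5001 / 10000) (49 / 50)).mono H.T1T)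
  have h0 := func_deriv (H.qf.edge 0) ht (hpos 0)
    ((test_gauss T (5001 / 10000) (49 / 50)).mono H.T1T)
  exact (h2.sub h0).continuousAt

lemma Hyp.D (H : Hyp T1 T R h K g) {t1 : ℝ} (ht1 : t1 ∈ Ioo 0 T1)
    (hg : ∀ τ ∈ Ioc 0 t1, rr T τ ≤ xa g τ) :
    ∀ t ∈ Ioc 0 t1, ∀ p ∈ Icc (0:ℝ) 1, Real.sin (π / 3 - th (cang 1) (g 1) t p) ≤
      √3 / 2 / rr T t * (g 1 t p).re :=
  H.qf.D_bound0 H.sec H.T1T ht1.2 H.cap hg

/-- smallness of the Gaussian height near the initial time -/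
lemma Hyp.N_ini (H : Hyp T1 T R h K g) {t : ℝ} (ht : t ∈ Ioo 0 T1) (ht4 : t ≤ 1 / 4) :
    Nq T g t ≤ 2 / 10000 := by
  have h1 := H.qf.Nq_init H.T1T ht (H.secAt ht) (by have := H.TT; linarith)
  have := H.hh
  linarith

/-- bound of the Gaussian height from the pointwise conclusions -/
lemma Hyp.N_le (H : Hyp T1 T R h K g) {t1 : ℝ} (ht1 : t1 ∈ Ioo 0 T1)
    (hc : ∀ τ ∈ Ioc 0 t1, Concl T τ g) : Nq T g t1 < 1 / 2500 := by
  have hmem : ∀ τ ∈ Ioc 0 t1, τ ∈ Ioo 0 T1 := fun τ hτ => ⟨hτ.1, hτ.2.trans_lt ht1.2⟩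
  have hd : ∀ τ ∈ Ioc 0 t1, ∃ N', HasDerivAt (Nq T g) N' τ ∧ N' ≤ 1 / 10000 := by
    intro τ hτ
    refine H.qf.Nq_deriv H.T1T (hmem τ hτ) (H.secAt (hmem τ hτ)) (hc τ hτ).x0 (hc τ hτ).x2 H.hR ?_
    have := H.TT; linarith [hτ.1]
  choose! N' hN' hN'le using hd
  set s := min t1 (1 / 4) with hs
  have hs0 : 0 < s := lt_min ht1.1 (by norm_num)
  have hst : s ≤ t1 := min_le_left _ _
  have hs4 : s ≤ 1 / 4 := min_le_right _ _
  have hsub : ∀ τ ∈ Icc s t1, τ ∈ Ioc 0 t1 := fun τ hτ => ⟨hs0.trans_le hτ.1, hτ.2⟩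
  have hmono := mono_of_deriv (f := fun τ => -Nq T g τ + 1 / 10000 * τ)
    (f' := fun τ => -N' τ + 1 / 10000 * 1) (a := s) (b := t1)
    (fun τ hτ => (hN' τ (hsub τ hτ)).neg.add ((hasDerivAt_id' τ).const_mul _))
    (fun τ hτ => by have := hN'le τ (hsub τ hτ); linarith)
    (⟨le_refl _, hst⟩ : s ∈ Icc s t1) ⟨hst, le_refl _⟩ hst
  have hinit := H.N_ini (hmem s ⟨hs0, hst⟩) hs4
  have := H.TT
  have h2 := H.ltT ht1
  linarith

theorem Hyp.good_all (H : Hyp T1 T R h K g) : ∀ t ∈ Ioo 0 T1, Good T g t := by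
  intro t1 ht1
  have hT1 := H.T1pos
  -- near the initial time
  have hnear : ∀ᶠ s in 𝓝[>] (0:ℝ), ∀ τ ∈ Ioc 0 s, Good T g τ := by
    have h1 := H.xa1
    obtain ⟨e, he, hsub⟩ := (mem_nhdsGT_iff_exists_Ioo_subset).1 h1
    have he0 : (0:ℝ) < e := he
    have hm : 0 < min e (min T1 (1 / 4)) := lt_min he0 (lt_min hT1 (by norm_num))
    filter_upwards [Ioo_mem_nhdsGT hm] with s hs τ hτ
    have a1 : τ < e := (hτ.2.trans_lt hs.2).trans_le (min_le_left _ _)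
    have a2 : τ < T1 := (hτ.2.trans_lt hs.2).trans_le ((min_le_right _ _).trans (min_le_left _ _))
    have a3 : τ < 1 / 4 := (hτ.2.trans_lt hs.2).trans_le
      ((min_le_right _ _).trans (min_le_right _ _))
    have hτI : τ ∈ Ioo 0 T1 := ⟨hτ.1, a2⟩
    have hx : 1 ≤ xa g τ := hsub ⟨hτ.1, a1⟩
    refine ⟨(H.rr_le hτI).trans hx, ?_, ?_⟩
    · have := H.qf.ya_le_h hτI (H.secAt hτI)
      have := H.hh
      linarith
    · have := H.N_ini hτI a3.le
      linarith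
  have h3 : ∀ᶠ s in 𝓝[>] (0:ℝ), s ∈ Ioo 0 t1 := Ioo_mem_nhdsGT ht1.1
  obtain ⟨s, hs1, hs2⟩ := (hnear.and h3).exists
  have hmem : ∀ τ ∈ Icc s t1, τ ∈ Ioo 0 T1 := fun τ hτ => ⟨hs2.1.trans_le hτ.1,
    hτ.2.trans_lt ht1.2⟩
  refine continuation (P := Good T g) hs2.2.le ?_ (hs1 s ⟨hs2.1, le_refl _⟩) ?_ t1
    ⟨hs2.2.le, le_refl _⟩
  · have c1 : ContinuousOn (xa g) (Icc s t1) := fun τ hτ =>
      (H.cont_xa (hmem τ hτ)).1.continuousWithinAt
    have c2 : ContinuousOn (ya g) (Icc s t1) := fun τ hτ =>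
      (H.cont_xa (hmem τ hτ)).2.1.continuousWithinAt
    have c3 : ContinuousOn (rr T) (Icc s t1) := fun τ hτ =>
      (H.cont_xa (hmem τ hτ)).2.2.continuousWithinAt
    have c4 : ContinuousOn (Nq T g) (Icc s t1) := fun τ hτ =>
      (H.cont_N (hmem τ hτ)).continuousWithinAt
    have i1 := isClosed_Icc.isClosed_le c3 c1
    have i2 := isClosed_Icc.isClosed_le c2 c1
    have i3 := isClosed_Icc.isClosed_le c4 (continuousOn_const (c := (1 / 2500 : ℝ)))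
    convert (i1.inter i2).inter i3 using 1
    ext t
    simp only [mem_inter_iff, mem_ofPred_eq, Good]
    tauto
  · intro x hx hP
    have hxI : x ∈ Ioo 0 T1 := ⟨hs2.1.trans_le hx.1, hx.2.trans ht1.2⟩
    have hgood : ∀ τ ∈ Ioc 0 x, Good T g τ := by
      intro τ hτ
      rcases le_or_gt τ s with h | h
      · exact hs1 τ ⟨hτ.1, h⟩
      · exact hP τ ⟨h.le, hτ.2⟩
    have hDall := H.D hxI (fun τ hτ => (hgood τ hτ).1)
    have hc : ∀ τ ∈ Ioc 0 x, Concl T τ g := fun τ hτ =>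
      H.concl ⟨hτ.1, hτ.2.trans_lt hxI.2⟩ (hgood τ hτ) (hDall τ hτ)
    have hN := H.N_le hxI hc
    have hcx := hc x ⟨hxI.1, le_refl _⟩
    obtain ⟨k1, k2, k3⟩ := H.cont_xa hxI
    have k4 := H.cont_N hxI
    have hr := rr_pos (H.ltT hxI)
    have f1 : ∀ᶠ τ in 𝓝 x, rr T τ < xa g τ :=
      k3.eventually_lt k1 (by have := hcx.big; linarith)
    have f2 : ∀ᶠ τ in 𝓝 x, ya g τ < xa g τ := k2.eventually_lt k1 hcx.yx
    have f3 : ∀ᶠ τ in 𝓝 x, Nq T g τ < 1 / 2500 := k4.eventually_lt continuousAt_const hN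
    have f4 : ∀ᶠ τ in 𝓝 x, Good T g τ := by
      filter_upwards [f1, f2, f3] with τ a1 a2 a3
      exact ⟨a1.le, a2.le, a3.le⟩
    exact f4.filter_mono nhdsWithin_le_nhds

theorem Hyp.D_all (H : Hyp T1 T R h K g) {t : ℝ} (ht : t ∈ Ioo 0 T1) :
    ∀ p ∈ Icc (0:ℝ) 1, Real.sin (π / 3 - th (cang 1) (g 1) t p) ≤
      √3 / 2 / rr T t * (g 1 t p).re :=
  H.D ht (fun τ hτ => (H.good_all τ ⟨hτ.1, hτ.2.trans_lt ht.2⟩).1) t ⟨ht.1, le_refl _⟩

theorem Hyp.concl_all (H : Hyp T1 T R h K g) {t : ℝ} (ht : t ∈ Ioo 0 T1) : Concl T t g :=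
  H.concl ht (H.good_all t ht) (H.D_all ht)

/-- speed bound at the mid-point of the cap -/
lemma Hyp.yM_speed (H : Hyp T1 T R h K g) {t : ℝ} (ht : t ∈ Ioo 0 T1) :
    -(√3 / 2 / rr T t) ≤ (dt (g 1) t 1).im := by
  have htI := H.mem ht
  have hs := H.secAt ht
  have hpos := SecAt.posAt H.qf htI hs
  have hD := H.D_all ht
  have hth := hasDerivAt_th_p (H.qf.edge 1).sm htI (hpos 1 1 one_mem_I)
  have hd : HasDerivAt (fun p => Real.sin (π / 3 - th (cang 1) (g 1) t p) -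
      √3 / 2 / rr T t * (g 1 t p).re) (Real.cos (π / 3 - th (cang 1) (g 1) t 1) *
      (-thp (g 1) t 1) - √3 / 2 / rr T t * (dp (g 1) t 1).re) 1 :=
    ((hth.const_sub (π / 3)).sin).sub ((H.qf.dre htI 1 1).const_mul _)
  have h1 := deriv_nonneg_of_left_max hd zero_lt_one (fun z hz => by
    have := hD z ⟨hz.1.le, hz.2.le⟩
    rw [H.qf.th_M htI hpos, H.qf.mRe t htI, sub_self, Real.sin_zero]
    linarith)
  rw [H.qf.th_M htI hpos, sub_self, Real.cos_zero, (H.qf.thp_M htI hs).1, (polar1 t 1).1,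
    H.qf.th_M htI hpos, sub_self, Real.cos_zero] at h1
  have hv := H.qf.norm_pos htI 1 one_mem_I
  have h2 : 0 ≤ ‖dp (g 1) t 1‖ * ((dt (g 1) t 1).im + √3 / 2 / rr T t) := by linarith
  have := nonneg_of_mul_nonneg_right h2 hv
  linarith

/-- smallness of the height of the corner -/
lemma Hyp.ya_le (H : Hyp T1 T R h K g) {t : ℝ} (ht : t ∈ Ioo 0 T1) : ya g t ≤ 0.7183 * rr T t := by
  have hc := H.concl_all ht
  have hr := rr_pos (H.ltT ht)
  have hya := H.qf.ya_pos ht (H.secAt ht)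
  have h1 := hc.big
  have h2 := hc.prod
  have : (41 / 40 * rr T t) * ya g t ≤ (41 / 40 * rr T t) * (0.7183 * rr T t) := by nlinarith
  exact le_of_mul_le_mul_left this (by positivity)

end

/-! ## up to the extinction of the cell -/

/-- the flow exists up to the time `T` -/
structure HypE (T t0 R h K : ℝ) (g : Fin 3 → ℝ → ℝ → ℂ) : Prop where
  base : Hyp T T R h K g
  t0mem : t0 ∈ Ioo 0 T

section
variable {T t0 R h K : ℝ} {g : Fin 3 → ℝ → ℝ → ℂ}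

lemma HypE.qf (H : HypE T t0 R h K g) : QF T R h g := H.base.qf
lemma HypE.hR (H : HypE T t0 R h K g) : 1000 ≤ R := H.base.hR
lemma HypE.hh (H : HypE T t0 R h K g) : h ≤ 1 / 10000 := H.base.hh
lemma HypE.mem (H : HypE T t0 R h K g) {t : ℝ} (ht : t ∈ Ico t0 T) : t ∈ Ioo 0 T :=
  ⟨H.t0mem.1.trans_le ht.1, ht.2⟩
lemma HypE.secAt (H : HypE T t0 R h K g) {t : ℝ} (ht : t ∈ Ico t0 T) : SecAt g t :=
  H.base.sec t (H.mem ht)
lemma HypE.rr_le (H : HypE T t0 R h K g) {t : ℝ} (ht : t ∈ Ico t0 T) : rr T t ≤ 1 :=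
  H.base.rr_le (H.mem ht)
lemma HypE.area (H : HypE T t0 R h K g) {t : ℝ} (ht : t ∈ Ico t0 T) :
    Aq g t = π / 6 * rr T t ^ 2 := H.base.area (H.mem ht)
lemma HypE.x0_abs (H : HypE T t0 R h K g) {t : ℝ} (ht : t ∈ Ico t0 T) (hyx : ya g t ≤ xa g t) :
    ∀ p ∈ Icc (0:ℝ) 1, |(g 0 t p).re| ≤ xa g t + √3 / 3 * ya g t :=
  H.base.x0_abs (H.mem ht) hyx
lemma HypE.good_all (H : HypE T t0 R h K g) : ∀ t ∈ Ico t0 T, Good T g t :=
  fun t ht => H.base.good_all t (H.mem ht)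
lemma HypE.concl_all (H : HypE T t0 R h K g) {t : ℝ} (ht : t ∈ Ico t0 T) : Concl T t g :=
  H.base.concl_all (H.mem ht)
lemma HypE.yM_speed (H : HypE T t0 R h K g) {t : ℝ} (ht : t ∈ Ico t0 T) :
    -(√3 / 2 / rr T t) ≤ (dt (g 1) t 1).im := H.base.yM_speed (H.mem ht)
lemma HypE.Kpos (H : HypE T t0 R h K g) : 0 < K := by
  have := H.base.hK
  have := Real.pi_pos
  linarith
lemma HypE.hW (H : HypE T t0 R h K g) : ∀ t ∈ Ico t0 T, ∀ i, ∀ p ∈ Icc (0:ℝ) 1,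
      th (cang i) (g i) t p ≤ K / yM g t * (g i t p).im := fun t ht => H.base.W t (H.mem ht)

lemma tendsto_rr (T : ℝ) : Tendsto (rr T) (𝓝[<] T) (𝓝 0) := by
  have : ContinuousAt (rr T) T := by
    have : Continuous (rr T) := by unfold rr; fun_prop
    exact this.continuousAt
  have h2 := this.tendsto.mono_left (nhdsWithin_le_nhds (s := Iio T))
  have h3 : rr T T = 0 := by rw [rr, sub_self, mul_zero, Real.sqrt_zero]
  rwa [h3] at h2

/-- the height of the cap tends to zero -/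
lemma HypE.lim (H : HypE T t0 R h K g) : Tendsto (yM g) (𝓝[<] T) (𝓝 0) := by
  have hr0 := tendsto_rr T
  have h1 : Tendsto (fun s => (0.7183 + 2) * rr T s) (𝓝[<] T) (𝓝 0) := by
    simpa using hr0.const_mul (0.7183 + 2)
  refine tendsto_of_tendsto_of_tendsto_of_le_of_le' tendsto_const_nhds h1 ?_ ?_
  · filter_upwards [Ico_mem_nhdsLT H.t0mem.2] with s hs
    exact (H.qf.yM_pos (H.mem hs) (H.secAt hs)).le
  · filter_upwards [Ico_mem_nhdsLT H.t0mem.2] with s hs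
    have htI := H.mem hs
    have a1 := H.base.ya_le htI
    have a2 := H.qf.Aq_height htI (H.secAt hs) (H.concl_all hs).yx.le
    rw [H.area hs] at a2
    have hr := rr_pos hs.2
    have s2 := sqrt3_bounds.2
    have s1 := sqrt3_bounds.1
    have p2 := pi_bounds.2
    rw [div_le_iff₀ (by positivity)] at a2
    have a3 : π / 6 * rr T s ^ 2 * (2 * √3) ≤ (2 * rr T s) ^ 2 := by
      have e1 : π / 6 * (2 * √3) ≤ 4 := by nlinarith
      have := mul_le_mul_of_nonneg_right e1 (sq_nonneg (rr T s))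
      nlinarith
    have a4 : yM g s - ya g s ≤ 2 * rr T s := by
      have h5 : (yM g s - ya g s) ^ 2 ≤ (2 * rr T s) ^ 2 := a2.trans a3
      exact (abs_le_of_sq_le_sq' h5 (by positivity)).2
    linarith

lemma HypE.yM_le (H : HypE T t0 R h K g) {t : ℝ} (ht : t ∈ Ico t0 T) :
    yM g t ≤ √3 / 2 * rr T t := by
  -- yM - (√3/2) r is nondecreasing and tends to 0
  have hmono : ∀ s ∈ Ico t T, yM g t - √3 / 2 * rr T t ≤ yM g s - √3 / 2 * rr T s := by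
    intro s hs
    refine mono_of_deriv (f := fun s => yM g s - √3 / 2 * rr T s)
      (f' := fun s => (dt (g 1) s 1).im - √3 / 2 * (-1 / rr T s)) (a := t) (b := s)
      (fun x hx => ?_) (fun x hx => ?_) ⟨le_refl _, hs.1⟩ ⟨hs.1, le_refl _⟩ hs.1
    · have hxI : x ∈ Ico t0 T := ⟨ht.1.trans hx.1, hx.2.trans_lt hs.2⟩
      exact (H.qf.yM_deriv (H.mem hxI)).sub ((hasDerivAt_rr hxI.2).const_mul _)
    · have hxI : x ∈ Ico t0 T := ⟨ht.1.trans hx.1, hx.2.trans_lt hs.2⟩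
      have := H.yM_speed hxI
      have e : √3 / 2 * (-1 / rr T x) = -(√3 / 2 / rr T x) := by ring
      rw [e]; linarith
  have hr0 := tendsto_rr T
  have hlim : Tendsto (fun s => yM g s - √3 / 2 * rr T s) (𝓝[<] T) (𝓝 (0 - √3 / 2 * 0)) :=
    H.lim.sub (hr0.const_mul _)
  have := ge_of_tendsto hlim (b := yM g t - √3 / 2 * rr T t) (by
    filter_upwards [Ico_mem_nhdsLT ht.2] with s hs
    exact hmono s hs)
  linarith

end

end Run7.h661y
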