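import Pool.Agent.Run7.h661.Y.Area

/-!
# The Gaussian height of the finger
-/

open Set Filter Topology MeasureTheory
open scoped ContDiff Real

namespace Run7.h661y

/-- abbreviation of the weight which is used -/
noncomputable def Gw (T t x : ℝ) : ℝ := Gs T (5001 / 10000) (49 / 50) t x

lemma Gs_pos (T κ β t x : ℝ) : 0 < Gs T κ β t x := Real.exp_pos _

/-- the two differential inequalities of the weight -/
lemma gauss_ineq {T t x : ℝ} (ht : t < T) (hx : (1019 / 1000) * rr T t ≤ x) :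
    0 ≤ Gsxx T (5001 / 10000) (49 / 50) t x ∧
    Gst T (5001 / 10000) (49 / 50) t x + Gsxx T (5001 / 10000) (49 / 50) t x ≤ 0 := by
  have hr := rr_pos ht
  have hr2 := rr_sq ht.le
  have hT : 0 < T - t := by linarith
  have hx2 : (1019 / 1000) ^ 2 * (2 * (T - t)) ≤ x ^ 2 := by
    rw [← hr2, ← mul_pow]
    exact pow_le_pow_left₀ (by positivity) hx 2
  have hG := Gs_pos T (5001 / 10000) (49 / 50) t x
  constructor
  · apply mul_nonneg hG.le
    rw [div_pow, sub_nonneg, div_le_div_iff₀ (by positivity) (by positivity)]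
    nlinarith [mul_pos hT hT]
  · rw [Gst, Gsxx, ← mul_add]
    apply mul_nonpos_of_nonneg_of_nonpos hG.le
    have e : (5001 / 10000 / (T - t) - 49 / 50 * x ^ 2 / (4 * (T - t) ^ 2) +
      ((49 / 50 * x / (2 * (T - t))) ^ 2 - 49 / 50 / (2 * (T - t)))) =
      ((101 / 10000) * (T - t) - (49 / 10000) * x ^ 2) / (T - t) ^ 2 := by
      field_simp
      ring
    rw [e]
    apply div_nonpos_of_nonpos_of_nonneg _ (by positivity)
    nlinarith

section
variable {T T1 R h : ℝ} {g : Fin 3 → ℝ → ℝ → ℂ}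

/-- the Gaussian height grows at most by a small amount -/
lemma QF.Nq_deriv (H : QF T1 R h g) (hT1 : T1 ≤ T) {t : ℝ} (ht : t ∈ Ioo 0 T1) (hs : SecAt g t)
    (hx0 : ∀ p ∈ Icc (0:ℝ) 1, (1019 / 1000) * rr T t ≤ (g 0 t p).re)
    (hx2 : ∀ p ∈ Icc (0:ℝ) 1, (1019 / 1000) * rr T t ≤ (g 2 t p).re)
    (hR : 1000 ≤ R) (hT : 2 * (T - t) ≤ 1) :
    ∃ N', HasDerivAt (Nq T g) N' t ∧ N' ≤ 1 / 10000 := by
  have hpos := SecAt.posAt H ht hs
  have htT : t < T := ht.2.trans_le hT1
  have hTt : 0 < T - t := by linarith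
  have h2 := func_deriv (H.edge 2) ht (hpos 2) ((test_gauss T (5001 / 10000) (49 / 50)).mono hT1)
  have h0 := func_deriv (H.edge 0) ht (hpos 0) ((test_gauss T (5001 / 10000) (49 / 50)).mono hT1)
  refine ⟨_, h2.sub h0, ?_⟩
  obtain ⟨c1, c2, c3, c4⟩ := ((test_gauss T (5001 / 10000) (49 / 50)).mono hT1).cslice ht
  have cx0 := H.cx ht 0
  have cx2 := H.cx ht 2
  have cy0 := H.cZi ht 0
  have cy2 := H.cZi ht 2
  have cr0 := H.cZr ht 0
  have cr2 := H.cZr ht 2
  have b2 := int_mono (f := fun p => Gst T (5001 / 10000) (49 / 50) t (g 2 t p).re *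
      (dp (g 2) t p).im + Gsxx T (5001 / 10000) (49 / 50) t (g 2 t p).re *
      (th (cang 2) (g 2) t p * (dp (g 2) t p).re)) (f' := fun _ => 0) zero_le_one
    (((c2.comp cx2).mul cy2).continuousOn.add ((c4.comp cx2).continuousOn.mul
      ((H.cth ht hs 2).mul cr2.continuousOn))) continuousOn_const
    (fun p hp => by
      obtain ⟨p1, p2⟩ := polar2 (g := g) t p
      obtain ⟨k1, k2⟩ := gauss_ineq htT (hx2 p hp)
      have hth := H.th_mem ht hs 2 hp
      have k := mul_cos_le_sin hth.1 (by linarith [Real.pi_pos])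
      have hv := H.norm_pos ht 2 hp
      have hsn := sin_nonneg3 hth.1 hth.2
      rw [p1, p2]
      have k5 := mul_le_mul_of_nonneg_left k (mul_nonneg k1 hv.le)
      have k6 := mul_le_mul_of_nonneg_right k2 (mul_nonneg hv.le hsn)
      nlinarith)
  have b0 := int_mono (f := fun _ => 0) (f' := fun p => Gst T (5001 / 10000) (49 / 50) t (g 0 t p).re *
      (dp (g 0) t p).im + Gsxx T (5001 / 10000) (49 / 50) t (g 0 t p).re *
      (th (cang 0) (g 0) t p * (dp (g 0) t p).re)) zero_le_one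
    continuousOn_const
    (((c2.comp cx0).mul cy0).continuousOn.add ((c4.comp cx0).continuousOn.mul
      ((H.cth ht hs 0).mul cr0.continuousOn)))
    (fun p hp => by
      obtain ⟨p1, p2⟩ := polar0 (g := g) t p
      obtain ⟨k1, k2⟩ := gauss_ineq htT (hx0 p hp)
      have hth := H.th_mem ht hs 0 hp
      have k := mul_cos_le_sin' hth.1 hth.2
      have hv := H.norm_pos ht 0 hp
      have hsn : 0 ≤ Real.sin (π / 3 + th (cang 0) (g 0) t p) :=
        (by positivity : (0:ℝ) ≤ √3 / 2).trans (sin_ge_half_sqrt hth.1 hth.2)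
      rw [p1, p2]
      have k5 := mul_le_mul_of_nonneg_left k (mul_nonneg k1 hv.le)
      have k6 := mul_le_mul_of_nonneg_right k2 (mul_nonneg hv.le hsn)
      nlinarith)
  rw [intervalIntegral.integral_zero] at b2 b0
  have hPre : (g 2 t 1).re = R := by rw [H.pEnd t ht]; simp
  -- the boundary term
  have hth := H.th_mem ht hs 2 one_mem_I
  have hbd : -(Gsx T (5001 / 10000) (49 / 50) t R * th (cang 2) (g 2) t 1) ≤ 1 / 10000 := by
    set u := 2 * (T - t) with hu
    have hu0 : 0 < u := by positivity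
    have hG : Gs T (5001 / 10000) (49 / 50) t R ≤ u⁻¹ * (8 * u ^ 2 / ((49 / 50) ^ 2 * R ^ 4)) := by
      have e1 : Gs T (5001 / 10000) (49 / 50) t R = Real.exp (-(5001 / 10000 * Real.log u)) *
          Real.exp (-(49 / 50 * R ^ 2 / (2 * u))) := by
        rw [Gs, ← Real.exp_add, hu]
        congr 1
        rw [show 2 * (2 * (T - t)) = 4 * (T - t) by ring]
        ring
      have e2 : Real.exp (-(5001 / 10000 * Real.log u)) ≤ u⁻¹ := by
        rw [← Real.exp_log hu0, ← Real.exp_neg, Real.exp_le_exp, Real.exp_log hu0]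
        have := Real.log_nonpos hu0.le hT
        linarith
      have e3 : Real.exp (-(49 / 50 * R ^ 2 / (2 * u))) ≤ 8 * u ^ 2 / ((49 / 50) ^ 2 * R ^ 4) := by
        have hz : 0 ≤ 49 / 50 * R ^ 2 / (2 * u) := by positivity
        have h4 := Real.quadratic_le_exp_of_nonneg hz
        rw [Real.exp_neg]
        have hR0 : 0 < R := by linarith
        rw [inv_le_comm₀ (Real.exp_pos _) (by positivity), inv_div]
        refine le_trans ?_ h4
        have : (49 / 50) ^ 2 * R ^ 4 / (8 * u ^ 2) = (49 / 50 * R ^ 2 / (2 * u)) ^ 2 / 2 := by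
          field_simp
          ring
        rw [this]
        linarith
      rw [e1]
      exact mul_le_mul e2 e3 (Real.exp_pos _).le (by positivity)
    have hR0 : 0 < R := by linarith
    have e5 : -(Gsx T (5001 / 10000) (49 / 50) t R * th (cang 2) (g 2) t 1) =
        Gs T (5001 / 10000) (49 / 50) t R * (49 / 50 * R / u) * th (cang 2) (g 2) t 1 := by
      rw [Gsx]; ring
    rw [e5]
    have e6 : Gs T (5001 / 10000) (49 / 50) t R * (49 / 50 * R / u) ≤ 8 / (49 / 50 * R ^ 3) := by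
      calc Gs T (5001 / 10000) (49 / 50) t R * (49 / 50 * R / u)
          ≤ (u⁻¹ * (8 * u ^ 2 / ((49 / 50) ^ 2 * R ^ 4))) * (49 / 50 * R / u) :=
            mul_le_mul_of_nonneg_right hG (by positivity)
        _ = 8 / (49 / 50 * R ^ 3) := by field_simp
    have e7 : 8 / (49 / 50 * R ^ 3) ≤ 1 / 20000 := by
      rw [div_le_div_iff₀ (by positivity) (by norm_num)]
      have : (1000:ℝ) ^ 3 ≤ R ^ 3 := pow_le_pow_left₀ (by norm_num) hR 3
      nlinarith
    have hth2 : th (cang 2) (g 2) t 1 ≤ 2 := by linarith [hth.2, Real.pi_le_four]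
    calc _ ≤ (1 / 20000) * 2 := mul_le_mul (e6.trans e7) hth2 hth.1 (by norm_num)
      _ = 1 / 10000 := by norm_num
  simp only [H.th_b ht hpos, H.dt0_im ht, H.re_zero ht 2, hPre, H.vel_P ht,
    H.re_zero ht 0, H.vel_junc ht 2 0, H.th_junc ht hpos 2 0, mul_zero, Complex.zero_im,
    zero_sub, sub_zero]
  linarith

lemma Gs_anti {T κ t x X : ℝ} (ht : t < T) (hx : |x| ≤ X) :
    Gs T κ (49 / 50) t X ≤ Gs T κ (49 / 50) t x := by
  rw [Gs, Gs, Real.exp_le_exp]
  have hT : 0 < T - t := by linarith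
  have : x ^ 2 ≤ X ^ 2 := by
    rw [← sq_abs x]; exact pow_le_pow_left₀ (abs_nonneg _) hx 2
  have h2 : 49 / 50 * x ^ 2 / (4 * (T - t)) ≤ 49 / 50 * X ^ 2 / (4 * (T - t)) := by
    apply div_le_div_of_nonneg_right _ (by positivity)
    linarith
  linarith

/-- lower bound of the Gaussian height by the height of a point of the arm -/
lemma QF.Nq_lower (H : QF T1 R h g) (hT1 : T1 ≤ T) {t : ℝ} (ht : t ∈ Ioo 0 T1) (hs : SecAt g t)
    {X q : ℝ}
    (hq : q ∈ Icc (0:ℝ) 1)
    (hX0 : ∀ p ∈ Icc (0:ℝ) 1, |(g 0 t p).re| ≤ X) (hX2 : ∀ p ∈ Icc (0:ℝ) q, |(g 2 t p).re| ≤ X) :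
    Gs T (5001 / 10000) (49 / 50) t X * (g 2 t q).im ≤ Nq T g t := by
  have htT : t < T := ht.2.trans_le hT1
  obtain ⟨c1, -, -, -⟩ := ((test_gauss T (5001 / 10000) (49 / 50)).mono hT1).cslice ht
  have cx0 := H.cx ht 0
  have cx2 := H.cx ht 2
  have cy0 := H.cZi ht 0
  have cy2 := H.cZi ht 2
  set W := Gs T (5001 / 10000) (49 / 50) t X with hW
  have hsub : Icc (0:ℝ) q ⊆ Icc 0 1 := fun p hp => ⟨hp.1, hp.2.trans hq.2⟩
  have hsub' : Icc q (1:ℝ) ⊆ Icc 0 1 := fun p hp => ⟨hq.1.trans hp.1, hp.2⟩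
  have e0 : FF (Gs T (5001 / 10000) (49 / 50)) g 0 t ≤ W * 0 - W * ya g t := by
    have := int_le_primitive (f := fun p => Gs T (5001 / 10000) (49 / 50) t (g 0 t p).re *
        (dp (g 0) t p).im)
      (F := fun p => W * (g 0 t p).im) (F' := fun p => W * (dp (g 0) t p).im) zero_le_one
      ((c1.comp cx0).mul cy0).continuousOn (cy0.const_mul W).continuousOn
      (fun p _ => (H.dim ht 0 p).const_mul W)
      (fun p hp => mul_le_mul_of_nonpos_right (Gs_anti htT (hX0 p hp)) (H.dp0_im_neg ht hs hp).le)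
    simp only [H.im_zero ht, H.bIm t ht] at this
    exact this
  have cont2 : Continuous (fun p => Gs T (5001 / 10000) (49 / 50) t (g 2 t p).re *
        (dp (g 2) t p).im) := (c1.comp cx2).mul cy2
  have e2a : W * (g 2 t q).im - W * ya g t ≤
      ∫ p in (0:ℝ)..q, Gs T (5001 / 10000) (49 / 50) t (g 2 t p).re * (dp (g 2) t p).im := by
    have := primitive_le_int (f := fun p => Gs T (5001 / 10000) (49 / 50) t (g 2 t p).re *
        (dp (g 2) t p).im)
      (F := fun p => W * (g 2 t p).im) (F' := fun p => W * (dp (g 2) t p).im) hq.1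
      cont2.continuousOn (cy2.const_mul W).continuousOn
      (fun p _ => (H.dim ht 2 p).const_mul W)
      (fun p hp => mul_le_mul_of_nonneg_right (Gs_anti htT (hX2 p hp))
        (H.dp2_im_nonneg ht hs (hsub hp)))
    simp only [H.im_zero ht] at this
    exact this
  have e2b : 0 ≤ ∫ p in q..1, Gs T (5001 / 10000) (49 / 50) t (g 2 t p).re *
      (dp (g 2) t p).im := by
    apply intervalIntegral.integral_nonneg hq.2
    intro p hp
    exact mul_nonneg (Gs_pos _ _ _ _ _).le (H.dp2_im_nonneg ht hs (hsub' hp))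
  have e2 : FF (Gs T (5001 / 10000) (49 / 50)) g 2 t =
      (∫ p in (0:ℝ)..q, Gs T (5001 / 10000) (49 / 50) t (g 2 t p).re * (dp (g 2) t p).im) +
      ∫ p in q..1, Gs T (5001 / 10000) (49 / 50) t (g 2 t p).re * (dp (g 2) t p).im := by
    rw [intervalIntegral.integral_add_adjacent_intervals (cont2.intervalIntegrable _ _)
      (cont2.intervalIntegrable _ _)]
    rfl
  rw [Nq, e2]
  linarith

/-- initial bound -/
lemma QF.Nq_init (H : QF T1 R h g) (hT1 : T1 ≤ T) {t : ℝ} (ht : t ∈ Ioo 0 T1) (hs : SecAt g t)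
    (hT : 1 / 2 ≤ 2 * (T - t)) : Nq T g t ≤ 2 * h := by
  have htT : t < T := ht.2.trans_le hT1
  obtain ⟨c1, -, -, -⟩ := ((test_gauss T (5001 / 10000) (49 / 50)).mono hT1).cslice ht
  have cx0 := H.cx ht 0
  have cx2 := H.cx ht 2
  have cy0 := H.cZi ht 0
  have cy2 := H.cZi ht 2
  have hle1 : ∀ x, Gs T (5001 / 10000) (49 / 50) t x ≤ 2 := by
    intro x
    have h2 : (2:ℝ) = Real.exp (Real.log 2) := (Real.exp_log (by norm_num)).symm
    rw [Gs]
    refine le_trans ?_ (le_of_eq h2.symm)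
    rw [Real.exp_le_exp]
    have : 0 < T - t := by linarith
    have h3 : 0 ≤ 49 / 50 * x ^ 2 / (4 * (T - t)) := by positivity
    have h4 : Real.log (1 / 2) ≤ Real.log (2 * (T - t)) := Real.log_le_log (by norm_num) hT
    have h5 : Real.log (1 / 2) = -Real.log 2 := by rw [one_div, Real.log_inv]
    have h6 : 0 ≤ Real.log 2 := Real.log_nonneg (by norm_num)
    linarith
  have e2 : FF (Gs T (5001 / 10000) (49 / 50)) g 2 t ≤ 2 * h - 2 * ya g t := by
    have := int_le_primitive (f := fun p => Gs T (5001 / 10000) (49 / 50) t (g 2 t p).re *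
        (dp (g 2) t p).im)
      (F := fun p => 2 * (g 2 t p).im) (F' := fun p => 2 * (dp (g 2) t p).im) zero_le_one
      ((c1.comp cx2).mul cy2).continuousOn (cy2.const_mul 2).continuousOn
      (fun p _ => (H.dim ht 2 p).const_mul 2)
      (fun p hp => by
        have := mul_le_mul_of_nonneg_right (hle1 (g 2 t p).re) (H.dp2_im_nonneg ht hs hp)
        linarith)
    have hP : (g 2 t 1).im = h := by rw [H.pEnd t ht]; simp
    simp only [H.im_zero ht, hP] at this
    exact this
  have e0 : 2 * 0 - 2 * ya g t ≤ FF (Gs T (5001 / 10000) (49 / 50)) g 0 t := by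
    have := primitive_le_int (f := fun p => Gs T (5001 / 10000) (49 / 50) t (g 0 t p).re *
        (dp (g 0) t p).im)
      (F := fun p => 2 * (g 0 t p).im) (F' := fun p => 2 * (dp (g 0) t p).im) zero_le_one
      ((c1.comp cx0).mul cy0).continuousOn (cy0.const_mul 2).continuousOn
      (fun p _ => (H.dim ht 0 p).const_mul 2)
      (fun p hp => by
        have := mul_le_mul_of_nonpos_right (hle1 (g 0 t p).re) (H.dp0_im_neg ht hs hp).le
        linarith)
    simp only [H.im_zero ht, H.bIm t ht] at this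
    exact this
  rw [Nq]
  linarith

end

end Run7.h661y
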