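import Pool.Agent.Run7.h661.Y.Quarter

/-!
# Consequences of the sector condition
-/

open Set Filter Topology
open scoped ContDiff Real

namespace Run7.h661y

/-! ## trigonometric inequalities -/

lemma mul_cos_le_sin {x : ℝ} (h0 : 0 ≤ x) (h1 : x ≤ 2 * π / 3) : x * Real.cos x ≤ Real.sin x := by
  have hpi := Real.pi_pos
  rcases lt_or_ge x (π / 2) with h | h
  · have h2 := Real.le_tan h0 h
    have h3 : 0 < Real.cos x := Real.cos_pos_of_mem_Ioo ⟨by linarith, h⟩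
    rw [Real.tan_eq_sin_div_cos, le_div_iff₀ h3] at h2
    exact h2
  · have h2 : Real.cos x ≤ 0 := Real.cos_nonpos_of_pi_div_two_le_of_le h (by linarith)
    have h3 : 0 ≤ Real.sin x := Real.sin_nonneg_of_nonneg_of_le_pi h0 (by linarith)
    nlinarith

lemma mul_cos_le_sin' {x : ℝ} (h0 : 0 ≤ x) (h1 : x ≤ π / 3) :
    x * Real.cos (π / 3 + x) ≤ Real.sin (π / 3 + x) := by
  have hpi := Real.pi_pos
  rcases le_or_gt (Real.cos (π / 3 + x)) 0 with h | h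
  · have h3 : 0 ≤ Real.sin (π / 3 + x) :=
      Real.sin_nonneg_of_nonneg_of_le_pi (by linarith) (by linarith)
    nlinarith
  · have h2 := mul_cos_le_sin (x := π / 3 + x) (by linarith) (by linarith)
    nlinarith

lemma cos_ge_half {x : ℝ} (h0 : 0 ≤ x) (h1 : x ≤ π / 3) : 1 / 2 ≤ Real.cos x := by
  rw [← Real.cos_pi_div_three]
  exact Real.cos_le_cos_of_nonneg_of_le_pi h0 (by linarith [Real.pi_pos]) h1

lemma sin_le_half_sqrt {x : ℝ} (h0 : 0 ≤ x) (h1 : x ≤ π / 3) : Real.sin x ≤ √3 / 2 := by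
  rw [← Real.sin_pi_div_three]
  exact Real.sin_le_sin_of_le_of_le_pi_div_two (by linarith [Real.pi_pos])
    (by linarith [Real.pi_pos]) h1

lemma sin_nonneg3 {x : ℝ} (h0 : 0 ≤ x) (h1 : x ≤ π / 3) : 0 ≤ Real.sin x :=
  Real.sin_nonneg_of_nonneg_of_le_pi h0 (by linarith [Real.pi_pos])

lemma sin_ge_half_sqrt {x : ℝ} (h0 : 0 ≤ x) (h1 : x ≤ π / 3) :
    √3 / 2 ≤ Real.sin (π / 3 + x) := by
  have h2 : Real.sin (π / 3 + x) = √3 / 2 * Real.cos x + 1 / 2 * Real.sin x := by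
    rw [Real.sin_add, Real.cos_pi_div_three, Real.sin_pi_div_three]
  have hc := cos_ge_half h0 h1
  have hs := sin_nonneg3 h0 h1
  have e := Real.sin_sq_add_cos_sq x
  have h3 : √3 * √3 = 3 := Real.mul_self_sqrt (by norm_num)
  have hsle := sin_le_half_sqrt h0 h1
  have h30 : 0 ≤ √3 := Real.sqrt_nonneg 3
  rw [h2]
  -- √3 (1 - cos) ≤ sin, since sin² = (1-cos)(1+cos) and sin ≤ √3 cos ...
  have hcle : Real.cos x ≤ 1 := Real.cos_le_one x
  have key : √3 * (1 - Real.cos x) ≤ Real.sin x := by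
    -- 3 (1-c)^2 ≤ s^2 = (1-c)(1+c)
    have : (√3 * (1 - Real.cos x)) ^ 2 ≤ Real.sin x ^ 2 := by
      have : (√3 * (1 - Real.cos x)) ^ 2 = 3 * (1 - Real.cos x) ^ 2 := by
        rw [mul_pow, sq (√3), h3]
      rw [this]
      nlinarith
    exact (abs_le_of_sq_le_sq' this hs).2
  linarith

lemma abs_cos_le {x : ℝ} (h0 : 0 ≤ x) (h1 : x ≤ π / 3) :
    √3 * |Real.cos (π / 3 + x)| ≤ Real.sin (π / 3 + x) := by
  have h2 := sin_ge_half_sqrt h0 h1
  have h30 : 0 ≤ √3 := Real.sqrt_nonneg 3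
  have h3 : √3 * √3 = 3 := Real.mul_self_sqrt (by norm_num)
  have e := Real.sin_sq_add_cos_sq (π / 3 + x)
  have h4 : |Real.cos (π / 3 + x)| ≤ 1 / 2 := by
    rw [abs_le]
    constructor <;> nlinarith
  nlinarith

/-! ## monotonicity from the sign of the derivative -/

lemma mono_of_deriv {f f' : ℝ → ℝ} {a b : ℝ} (hf : ∀ p ∈ Icc a b, HasDerivAt f (f' p) p)
    (hn : ∀ p ∈ Icc a b, 0 ≤ f' p) {p q : ℝ} (hp : p ∈ Icc a b) (hq : q ∈ Icc a b)
    (hpq : p ≤ q) : f p ≤ f q := by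
  have : MonotoneOn f (Icc a b) := by
    apply monotoneOn_of_deriv_nonneg (convex_Icc a b)
    · exact fun x hx => (hf x hx).continuousAt.continuousWithinAt
    · intro x hx
      exact (hf x (interior_subset hx)).differentiableAt.differentiableWithinAt
    · intro x hx
      rw [(hf x (interior_subset hx)).deriv]
      exact hn x (interior_subset hx)
  exact this hp hq hpq

lemma strictMono_of_deriv {f f' : ℝ → ℝ} {a b : ℝ} (hf : ∀ p ∈ Icc a b, HasDerivAt f (f' p) p)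
    (hn : ∀ p ∈ Icc a b, 0 < f' p) : StrictMonoOn f (Icc a b) := by
  apply strictMonoOn_of_deriv_pos (convex_Icc a b)
  · exact fun x hx => (hf x hx).continuousAt.continuousWithinAt
  · intro x hx
    rw [(hf x (interior_subset hx)).deriv]
    exact hn x (interior_subset hx)

section
variable {T R h : ℝ} {g : Fin 3 → ℝ → ℝ → ℂ}

lemma QF.th_mem (H : QF T R h g) {t : ℝ} (ht : t ∈ Ioo 0 T) (hs : SecAt g t) (i : Fin 3) {p : ℝ}
    (hp : p ∈ Icc (0:ℝ) 1) : 0 ≤ th (cang i) (g i) t p ∧ th (cang i) (g i) t p ≤ π / 3 :=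
  (sec_iff ((hs i p hp).re_pos ((H.edge i).reg t ht p hp))).1 (hs i p hp)

lemma polar0 (t p : ℝ) : (dp (g 0) t p).re = -(‖dp (g 0) t p‖ * Real.cos (π / 3 + th (cang 0) (g 0) t p)) ∧
    (dp (g 0) t p).im = -(‖dp (g 0) t p‖ * Real.sin (π / 3 + th (cang 0) (g 0) t p)) := by
  obtain ⟨h1, h2⟩ := polar (cang 0) (g 0) t p
  have e : cang 0 + th (cang 0) (g 0) t p = (π / 3 + th (cang 0) (g 0) t p) - π := by
    rw [cang0]; ring
  constructor
  · rw [h1, e, Real.cos_sub_pi]; ring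
  · rw [h2, e, Real.sin_sub_pi]; ring

lemma polar1 (t p : ℝ) : (dp (g 1) t p).re = -(‖dp (g 1) t p‖ * Real.cos (π / 3 - th (cang 1) (g 1) t p)) ∧
    (dp (g 1) t p).im = ‖dp (g 1) t p‖ * Real.sin (π / 3 - th (cang 1) (g 1) t p) := by
  obtain ⟨h1, h2⟩ := polar (cang 1) (g 1) t p
  have e : cang 1 + th (cang 1) (g 1) t p = π - (π / 3 - th (cang 1) (g 1) t p) := by
    rw [cang1]; ring
  constructor
  · rw [h1, e, Real.cos_pi_sub]; ring
  · rw [h2, e, Real.sin_pi_sub]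

lemma polar2 (t p : ℝ) : (dp (g 2) t p).re = ‖dp (g 2) t p‖ * Real.cos (th (cang 2) (g 2) t p) ∧
    (dp (g 2) t p).im = ‖dp (g 2) t p‖ * Real.sin (th (cang 2) (g 2) t p) := by
  obtain ⟨h1, h2⟩ := polar (cang 2) (g 2) t p
  have e : cang 2 + th (cang 2) (g 2) t p = th (cang 2) (g 2) t p := by rw [cang2]; ring
  rw [e] at h1 h2
  exact ⟨h1, h2⟩

/-- coordinates of the junction and height of the mid-point of the cap -/
noncomputable def xa (g : Fin 3 → ℝ → ℝ → ℂ) (t : ℝ) : ℝ := (g 0 t 0).re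
noncomputable def ya (g : Fin 3 → ℝ → ℝ → ℂ) (t : ℝ) : ℝ := (g 0 t 0).im
noncomputable def yM (g : Fin 3 → ℝ → ℝ → ℂ) (t : ℝ) : ℝ := (g 1 t 1).im

lemma QF.re_zero (H : QF T R h g) {t : ℝ} (ht : t ∈ Ioo 0 T) (i : Fin 3) : (g i t 0).re = xa g t := by
  rw [H.junc t ht i 0]; rfl
lemma QF.im_zero (H : QF T R h g) {t : ℝ} (ht : t ∈ Ioo 0 T) (i : Fin 3) : (g i t 0).im = ya g t := by
  rw [H.junc t ht i 0]; rfl

lemma QF.dre (H : QF T R h g) {t : ℝ} (ht : t ∈ Ioo 0 T) (i : Fin 3) (p : ℝ) :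
    HasDerivAt (fun q => (g i t q).re) (dp (g i) t p).re p :=
  hasDerivAt_re ((H.edge i).sm.hasDerivAt_p ht p)
lemma QF.dim (H : QF T R h g) {t : ℝ} (ht : t ∈ Ioo 0 T) (i : Fin 3) (p : ℝ) :
    HasDerivAt (fun q => (g i t q).im) (dp (g i) t p).im p :=
  hasDerivAt_im ((H.edge i).sm.hasDerivAt_p ht p)

lemma QF.dp0_im_neg (H : QF T R h g) {t : ℝ} (ht : t ∈ Ioo 0 T) (hs : SecAt g t) {p : ℝ}
    (hp : p ∈ Icc (0:ℝ) 1) : (dp (g 0) t p).im < 0 := by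
  obtain ⟨h1, h2⟩ := H.th_mem ht hs 0 hp
  have h3 := sin_ge_half_sqrt h1 h2
  have hn := H.norm_pos ht 0 hp
  rw [(polar0 t p).2]
  have : 0 < √3 / 2 := by positivity
  have : 0 < ‖dp (g 0) t p‖ * Real.sin (π / 3 + th (cang 0) (g 0) t p) :=
    mul_pos hn (by linarith)
  linarith

lemma QF.dp1_im_nonneg (H : QF T R h g) {t : ℝ} (ht : t ∈ Ioo 0 T) (hs : SecAt g t) {p : ℝ}
    (hp : p ∈ Icc (0:ℝ) 1) : 0 ≤ (dp (g 1) t p).im := by
  obtain ⟨h1, h2⟩ := H.th_mem ht hs 1 hp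
  have hn := H.norm_pos ht 1 hp
  rw [(polar1 t p).2]
  exact mul_nonneg hn.le (sin_nonneg3 (by linarith) (by linarith))

lemma QF.dp1_re_neg (H : QF T R h g) {t : ℝ} (ht : t ∈ Ioo 0 T) (hs : SecAt g t) {p : ℝ}
    (hp : p ∈ Icc (0:ℝ) 1) : (dp (g 1) t p).re < 0 := by
  obtain ⟨h1, h2⟩ := H.th_mem ht hs 1 hp
  have hn := H.norm_pos ht 1 hp
  have hc := cos_ge_half (x := π / 3 - th (cang 1) (g 1) t p) (by linarith) (by linarith)
  rw [(polar1 t p).1]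
  have := mul_pos hn (by linarith : 0 < Real.cos (π / 3 - th (cang 1) (g 1) t p))
  linarith

lemma QF.dp2_im_nonneg (H : QF T R h g) {t : ℝ} (ht : t ∈ Ioo 0 T) (hs : SecAt g t) {p : ℝ}
    (hp : p ∈ Icc (0:ℝ) 1) : 0 ≤ (dp (g 2) t p).im := by
  obtain ⟨h1, h2⟩ := H.th_mem ht hs 2 hp
  have hn := H.norm_pos ht 2 hp
  rw [(polar2 t p).2]
  exact mul_nonneg hn.le (sin_nonneg3 h1 h2)

lemma QF.dp2_re_pos (H : QF T R h g) {t : ℝ} (ht : t ∈ Ioo 0 T) (hs : SecAt g t) {p : ℝ}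
    (hp : p ∈ Icc (0:ℝ) 1) : 0 < (dp (g 2) t p).re := by
  obtain ⟨h1, h2⟩ := H.th_mem ht hs 2 hp
  have hn := H.norm_pos ht 2 hp
  have hc := cos_ge_half h1 h2
  rw [(polar2 t p).1]
  exact mul_pos hn (by linarith)

lemma QF.y0_anti (H : QF T R h g) {t : ℝ} (ht : t ∈ Ioo 0 T) (hs : SecAt g t) {p q : ℝ}
    (hp : p ∈ Icc (0:ℝ) 1) (hq : q ∈ Icc (0:ℝ) 1) (hpq : p ≤ q) : (g 0 t q).im ≤ (g 0 t p).im := by
  have := mono_of_deriv (f := fun q => -(g 0 t q).im) (f' := fun q => -(dp (g 0) t q).im)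
    (a := 0) (b := 1) (fun p _ => (H.dim ht 0 p).neg)
    (fun p hp => by have := H.dp0_im_neg ht hs hp; linarith) hp hq hpq
  linarith

lemma QF.ya_pos (H : QF T R h g) {t : ℝ} (ht : t ∈ Ioo 0 T) (hs : SecAt g t) : 0 < ya g t := by
  have := strictMono_of_deriv (f := fun q => -(g 0 t q).im) (f' := fun q => -(dp (g 0) t q).im)
    (a := 0) (b := 1) (fun p _ => (H.dim ht 0 p).neg)
    (fun p hp => by have := H.dp0_im_neg ht hs hp; linarith)
  have h2 := this zero_mem_I one_mem_I zero_lt_one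
  simp only [H.bIm t ht] at h2
  rw [ya]; linarith

lemma QF.y0_nonneg (H : QF T R h g) {t : ℝ} (ht : t ∈ Ioo 0 T) (hs : SecAt g t) {p : ℝ}
    (hp : p ∈ Icc (0:ℝ) 1) : 0 ≤ (g 0 t p).im := by
  have := H.y0_anti ht hs hp one_mem_I hp.2
  rwa [H.bIm t ht] at this

lemma QF.y1_mono (H : QF T R h g) {t : ℝ} (ht : t ∈ Ioo 0 T) (hs : SecAt g t) {p q : ℝ}
    (hp : p ∈ Icc (0:ℝ) 1) (hq : q ∈ Icc (0:ℝ) 1) (hpq : p ≤ q) : (g 1 t p).im ≤ (g 1 t q).im :=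
  mono_of_deriv (a := 0) (b := 1) (fun p _ => H.dim ht 1 p)
    (fun p hp => H.dp1_im_nonneg ht hs hp) hp hq hpq

lemma QF.y2_mono (H : QF T R h g) {t : ℝ} (ht : t ∈ Ioo 0 T) (hs : SecAt g t) {p q : ℝ}
    (hp : p ∈ Icc (0:ℝ) 1) (hq : q ∈ Icc (0:ℝ) 1) (hpq : p ≤ q) : (g 2 t p).im ≤ (g 2 t q).im :=
  mono_of_deriv (a := 0) (b := 1) (fun p _ => H.dim ht 2 p)
    (fun p hp => H.dp2_im_nonneg ht hs hp) hp hq hpq

lemma QF.x1_anti (H : QF T R h g) {t : ℝ} (ht : t ∈ Ioo 0 T) (hs : SecAt g t) {p q : ℝ}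
    (hp : p ∈ Icc (0:ℝ) 1) (hq : q ∈ Icc (0:ℝ) 1) (hpq : p ≤ q) : (g 1 t q).re ≤ (g 1 t p).re := by
  have := mono_of_deriv (f := fun q => -(g 1 t q).re) (f' := fun q => -(dp (g 1) t q).re)
    (a := 0) (b := 1) (fun p _ => (H.dre ht 1 p).neg)
    (fun p hp => by have := H.dp1_re_neg ht hs hp; linarith) hp hq hpq
  linarith

lemma QF.x2_strict (H : QF T R h g) {t : ℝ} (ht : t ∈ Ioo 0 T) (hs : SecAt g t) :
    StrictMonoOn (fun q => (g 2 t q).re) (Icc 0 1) :=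
  strictMono_of_deriv (fun p _ => H.dre ht 2 p) (fun p hp => H.dp2_re_pos ht hs hp)

lemma QF.ya_le_yM (H : QF T R h g) {t : ℝ} (ht : t ∈ Ioo 0 T) (hs : SecAt g t) :
    ya g t ≤ yM g t := by
  have := H.y1_mono ht hs zero_mem_I one_mem_I zero_le_one
  rwa [H.im_zero ht] at this

lemma QF.yM_pos (H : QF T R h g) {t : ℝ} (ht : t ∈ Ioo 0 T) (hs : SecAt g t) : 0 < yM g t :=
  (H.ya_pos ht hs).trans_le (H.ya_le_yM ht hs)

lemma QF.x1_nonneg (H : QF T R h g) {t : ℝ} (ht : t ∈ Ioo 0 T) (hs : SecAt g t) {p : ℝ}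
    (hp : p ∈ Icc (0:ℝ) 1) : 0 ≤ (g 1 t p).re := by
  have := H.x1_anti ht hs hp one_mem_I hp.2
  rwa [H.mRe t ht] at this

lemma QF.x1_le (H : QF T R h g) {t : ℝ} (ht : t ∈ Ioo 0 T) (hs : SecAt g t) {p : ℝ}
    (hp : p ∈ Icc (0:ℝ) 1) : (g 1 t p).re ≤ xa g t := by
  have := H.x1_anti ht hs zero_mem_I hp hp.1
  rwa [H.re_zero ht] at this

lemma QF.xa_nonneg (H : QF T R h g) {t : ℝ} (ht : t ∈ Ioo 0 T) (hs : SecAt g t) : 0 ≤ xa g t := by
  have := H.x1_nonneg ht hs zero_mem_I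
  rwa [H.re_zero ht] at this

lemma QF.xa_le_R (H : QF T R h g) {t : ℝ} (ht : t ∈ Ioo 0 T) (hs : SecAt g t) : xa g t ≤ R := by
  have := (H.x2_strict ht hs).monotoneOn zero_mem_I one_mem_I zero_le_one
  simp only [H.re_zero ht, H.pEnd t ht] at this
  simpa using this

lemma QF.ya_le_h (H : QF T R h g) {t : ℝ} (ht : t ∈ Ioo 0 T) (hs : SecAt g t) : ya g t ≤ h := by
  have := H.y2_mono ht hs zero_mem_I one_mem_I zero_le_one
  rw [H.im_zero ht, H.pEnd t ht] at this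
  simpa using this

/-- the short edge is steep -/
lemma QF.x0_lip (H : QF T R h g) {t : ℝ} (ht : t ∈ Ioo 0 T) (hs : SecAt g t) {p : ℝ}
    (hp : p ∈ Icc (0:ℝ) 1) :
    √3 * ((g 0 t p).re - xa g t) ≤ ya g t - (g 0 t p).im ∧
    √3 * (xa g t - (g 0 t p).re) ≤ ya g t - (g 0 t p).im := by
  have key : ∀ q ∈ Icc (0:ℝ) 1, √3 * |(dp (g 0) t q).re| ≤ -(dp (g 0) t q).im := by
    intro q hq
    obtain ⟨h1, h2⟩ := H.th_mem ht hs 0 hq
    have h3 := abs_cos_le h1 h2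
    have hn := H.norm_pos ht 0 hq
    rw [(polar0 t q).1, (polar0 t q).2, abs_neg, abs_mul, abs_norm]
    have := mul_le_mul_of_nonneg_left h3 hn.le
    linarith
  constructor
  · have := mono_of_deriv (f := fun q => -(g 0 t q).im - √3 * (g 0 t q).re)
      (f' := fun q => -(dp (g 0) t q).im - √3 * (dp (g 0) t q).re)
      (a := 0) (b := 1) (fun p _ => (H.dim ht 0 p).neg.sub ((H.dre ht 0 p).const_mul _))
      (fun p hp => by
        have h1 := key p hp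
        have h2 := le_abs_self (dp (g 0) t p).re
        have h3 : 0 ≤ √3 := Real.sqrt_nonneg 3
        nlinarith) zero_mem_I hp hp.1
    simp only [H.re_zero ht, H.im_zero ht] at this
    linarith
  · have := mono_of_deriv (f := fun q => -(g 0 t q).im + √3 * (g 0 t q).re)
      (f' := fun q => -(dp (g 0) t q).im + √3 * (dp (g 0) t q).re)
      (a := 0) (b := 1) (fun p _ => (H.dim ht 0 p).neg.add ((H.dre ht 0 p).const_mul _))
      (fun p hp => by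
        have h1 := key p hp
        have h2 := neg_abs_le (dp (g 0) t p).re
        have h3 : 0 ≤ √3 := Real.sqrt_nonneg 3
        nlinarith) zero_mem_I hp hp.1
    simp only [H.re_zero ht, H.im_zero ht] at this
    linarith

/-- the mid-point of the cap moves down -/
lemma QF.thp_M (H : QF T R h g) {t : ℝ} (ht : t ∈ Ioo 0 T) (hs : SecAt g t) :
    thp (g 1) t 1 = -(‖dp (g 1) t 1‖ * (dt (g 1) t 1).im) ∧ (dt (g 1) t 1).im ≤ 0 := by
  have hpos := SecAt.posAt H ht hs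
  have e1 : thp (g 1) t 1 = -(‖dp (g 1) t 1‖ * (dt (g 1) t 1).im) := by
    rw [← (H.edge 1).cross ht one_mem_I, H.mAng t ht, (polar1 t 1).1, H.th_M ht hpos]
    simp; ring
  refine ⟨e1, ?_⟩
  have h1 := hasDerivAt_th_p (H.edge 1).sm ht (hpos 1 1 one_mem_I)
  have h2 := deriv_nonneg_of_left_max h1 zero_lt_one (fun z hz => by
    rw [H.th_M ht hpos]
    exact (H.th_mem ht hs 1 ⟨hz.1.le, hz.2.le⟩).2)
  rw [e1] at h2
  have hn := H.norm_pos ht 1 one_mem_I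
  by_contra hcon
  push Not at hcon
  have := mul_pos hn hcon
  linarith

lemma QF.yM_deriv (H : QF T R h g) {t : ℝ} (ht : t ∈ Ioo 0 T) :
    HasDerivAt (yM g) (dt (g 1) t 1).im t := hasDerivAt_im ((H.edge 1).sm.hasDerivAt_t ht 1)

end

end Run7.h661y
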